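import Pool.Agent.Lib.MP_a3a416_nt.LD.Defs
import Pool.Agent.Lib.MP_a3a416_nt.TW.Jets

/-!
# LD-Jets
PROOF.  Copy `TW/Jets.lean` (its three private lemmas too).  The only change: at the end `rJ` is congruent modulo `X^T` to `-∑_m P_m * hasseDeriv (e+m) E`, and modulo `X^T` `hasseDeriv (e+m) E ≡ - hasseDeriv (e+m) φ`
(`φ = (phiJ J w).map f`): coefficient `d < T` of both sides is `C(d+e+m, e+m)` times the coefficient `d + (e + m)` of `E`, resp. `-φ`, and `e ≤ d+(e+m)`, `d+(e+m)+2 ≤ e+S+T` (`m < S`, `d < T`), so `hvan` applies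
(`hasseDeriv_coeff`).  So `rJ.map f - sT.map f = -∑_m P_m * (hasseDeriv (e+m) E + hasseDeriv (e+m) φ) - X^p * ..` is divisible by `X^T`.
-/

namespace MP_a3a416_nt.LD

open Polynomial MP_a3a416_nt.BB MP_a3a416_nt.TW

private theorem taylor_hasse {R : Type} [CommRing R] (r : R) (m : ℕ) (P : R[X]) :
    taylor r (hasseDeriv m P) = hasseDeriv m (taylor r P) := by
  ext k
  have h := congrArg (fun L : R[X] →ₗ[R] R[X] => L P) (hasseDeriv_comp (R := R) k m)
  simp only [LinearMap.comp_apply, LinearMap.smul_apply] at h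
  rw [taylor_coeff, hasseDeriv_coeff, taylor_coeff, h, eval_smul, nsmul_eq_mul]
  congr 2
  rw [Nat.choose_symm_add]

private theorem choose_mod (p : ℕ) [hp : Fact p.Prime] (m : ℕ) (hm : m + 2 ≤ p) :
    (((p - 2).choose m : ℕ) : ZMod p) = (-1) ^ m * ((m : ZMod p) + 1) := by
  induction m with
  | zero => simp
  | succ m ih =>
    have h1 := ih (by omega)
    have h2 := Nat.choose_succ_right_eq (p - 2) m
    have h3 : (((p - 2).choose (m + 1) : ℕ) : ZMod p) * ((m : ZMod p) + 1) =
        (((p - 2).choose m : ℕ) : ZMod p) * (-((m : ZMod p) + 2)) := by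
      have h4 := congrArg (fun n : ℕ => (n : ZMod p)) h2
      simp only [Nat.cast_mul, Nat.cast_add, Nat.cast_one] at h4
      rw [h4]
      congr 1
      have h5 : ((p - 2 - m : ℕ) : ZMod p) + ((m : ZMod p) + 2) = 0 := by
        have h6 : (p - 2 - m) + (m + 2) = p := by omega
        have h7 := congrArg (fun n : ℕ => (n : ZMod p)) h6
        simp only [Nat.cast_add, Nat.cast_ofNat, ZMod.natCast_self] at h7
        exact h7
      exact eq_neg_of_add_eq_zero_left h5
    have hne : ((m : ZMod p) + 1) ≠ 0 := by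
      have h8 : ((m + 1 : ℕ) : ZMod p) ≠ 0 := by
        rw [Ne, ZMod.natCast_eq_zero_iff]
        intro hd
        have := Nat.le_of_dvd (by omega) hd
        omega
      simpa using h8
    apply mul_right_cancel₀ hne
    rw [h3, h1]
    push_cast
    ring

private theorem hasse_lin_pow (p : ℕ) [hp : Fact p.Prime] (m : ℕ) (hm : m + 2 ≤ p) (y : ZMod p) :
    hasseDeriv m ((X + C y : (ZMod p)[X]) ^ (p - 2)) =
      C ((-1) ^ m * ((m : ZMod p) + 1)) * (X + C y) ^ (p - 2 - m) := by
  rw [← taylor_X_pow, ← taylor_hasse]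
  have h : hasseDeriv m (X ^ (p - 2) : (ZMod p)[X]) =
      C ((-1) ^ m * ((m : ZMod p) + 1)) * X ^ (p - 2 - m) := by
    rw [X_pow_eq_monomial, hasseDeriv_monomial, mul_one, choose_mod p m hm,
      ← C_mul_X_pow_eq_monomial]
  rw [h, taylor_mul, taylor_C, taylor_X_pow]

theorem jets_modp (p : ℕ) [Fact p.Prime] (e S K N T J : ℕ) (c : ℕ × ℕ × ℕ → ℤ) (w : ℕ → ℤ)
    (hS : 1 ≤ S) (hNp : N < p) (hp : e + S + T + 4 ≤ p)
    (E : (ZMod p)[X]) (hE : E.comp (X + 1) - E = (X + 1) ^ (p - 2))
    (hvan : ∀ l, e ≤ l → l + 2 ≤ e + S + T → E.coeff l = -(((LJ.phiJ J w).coeff l : ℤ) : ZMod p))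
    (hreg : REG e S K N c)
    (hM : ∑ m ∈ Finset.range S, (PJ K N c m).map (Int.castRingHom (ZMod p)) * hasseDeriv (e + m) E = 0)
    {n k : ℕ} (hn : n < N) (hk : k < T) :
    (p : ℤ) ∣ (rJ e S K N c n - sT e S K N J c w n).coeff k := by
  classical
  set f := Int.castRingHom (ZMod p) with hf
  suffices hX : (X : (ZMod p)[X]) ^ T ∣ (rJ e S K N c n - sT e S K N J c w n).map f by
    rw [X_pow_dvd_iff] at hX
    have := hX k hk
    rw [coeff_map, hf, eq_intCast, ZMod.intCast_zmod_eq_zero_iff_dvd] at this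
    exact this
  set P : ℕ → (ZMod p)[X] := fun m => taylor (n : ZMod p) ((PJ K N c m).map f) with hP
  set Q : ℕ → (ZMod p)[X] := fun a => taylor (n : ZMod p) ((QJ e S K N c a).map f) with hQ
  have hfn : ∀ z : ℕ, f (z : ℤ) = (z : ZMod p) := fun z => by simp [hf]
  -- the pole part
  have hpole : ∀ a ∈ Finset.range n, ∑ m ∈ Finset.range S,
      P m * hasseDeriv (e + m) ((X + C ((n - a : ℕ) : ZMod p)) ^ (p - 2)) =
        (X ^ p + C ((n - a : ℕ) : ZMod p)) * Q a := by
    intro a ha
    rw [Finset.mem_range] at ha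
    set y : ZMod p := ((n - a : ℕ) : ZMod p) with hy
    have h1 := QJ_mul c hreg (show a < N by omega)
    have h2 := congrArg (fun R : ℤ[X] => taylor (n : ZMod p) (R.map f)) h1
    simp only [Polynomial.map_mul, Polynomial.map_pow, Polynomial.map_sub, map_X, map_C,
      Polynomial.map_sum, taylor_mul, taylor_pow, map_sub, taylor_X, taylor_C, map_sum] at h2
    have h3 : (X + C (n : ZMod p) - C (f (a : ℤ)) : (ZMod p)[X]) = X + C y := by
      rw [hfn, hy, Nat.cast_sub ha.le, C_sub]
      ring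
    rw [h3] at h2
    have hne : ((X + C y : (ZMod p)[X]) ^ (e + S + 1)) ≠ 0 := pow_ne_zero _ (X_add_C_ne_zero y)
    apply mul_left_cancel₀ hne
    have h4 : (X ^ p + C y : (ZMod p)[X]) = (X + C y) ^ p := by
      have h5 := lin_pow_p (p := p) y 1
      rw [C_1, one_mul, one_mul] at h5
      exact h5.symm
    rw [h4, mul_left_comm, h2, Finset.mul_sum, Finset.mul_sum]
    apply Finset.sum_congr rfl
    intro m hm
    rw [Finset.mem_range] at hm
    rw [hasse_lin_pow p (e + m) (by omega)]
    have h6 : f (cc (e + m)) = (-1) ^ (e + m) * (((e + m : ℕ) : ZMod p) + 1) := by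
      simp [hf, cc]
    rw [h6]
    have h7 : (X + C y : (ZMod p)[X]) ^ (e + S + 1) * (X + C y) ^ (p - 2 - (e + m)) =
        (X + C y) ^ p * (X + C y) ^ (S - 1 - m) := by
      rw [← pow_add, ← pow_add]
      congr 1
      omega
    calc (X + C y : (ZMod p)[X]) ^ (e + S + 1) *
          (P m * (C ((-1) ^ (e + m) * (((e + m : ℕ) : ZMod p) + 1)) * (X + C y) ^ (p - 2 - (e + m))))
        = P m * C ((-1) ^ (e + m) * (((e + m : ℕ) : ZMod p) + 1)) *
          ((X + C y) ^ (e + S + 1) * (X + C y) ^ (p - 2 - (e + m))) := by ring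
      _ = _ := by rw [h7]; ring
  -- the relation at `n`
  have hEn : taylor (n : ZMod p) E =
      E + ∑ b ∈ Finset.Icc 1 n, (X + C (b : ZMod p)) ^ (p - 2) := by
    rw [taylor_apply]
    exact E_comp_nat E hE n
  have hreindex : ∑ b ∈ Finset.Icc 1 n, (X + C (b : ZMod p) : (ZMod p)[X]) ^ (p - 2) =
      ∑ a ∈ Finset.range n, (X + C ((n - a : ℕ) : ZMod p)) ^ (p - 2) := by
    refine Finset.sum_bij' (fun b _ => n - b) (fun a _ => n - a) ?_ ?_ ?_ ?_ ?_
    · intro b hb
      rw [Finset.mem_Icc] at hb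
      rw [Finset.mem_range]
      omega
    · intro a ha
      rw [Finset.mem_range] at ha
      rw [Finset.mem_Icc]
      omega
    · intro b hb
      rw [Finset.mem_Icc] at hb
      omega
    · intro a ha
      rw [Finset.mem_range] at ha
      omega
    · intro b hb
      rw [Finset.mem_Icc] at hb
      have : n - (n - b) = b := by omega
      rw [this]
  have hrel : ∑ m ∈ Finset.range S, P m * hasseDeriv (e + m) E +
      ∑ a ∈ Finset.range n, (X ^ p + C ((n - a : ℕ) : ZMod p)) * Q a = 0 := by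
    have h1 := congrArg (fun R : (ZMod p)[X] => taylor (n : ZMod p) R) hM
    simp only [map_sum, taylor_mul, taylor_hasse, map_zero] at h1
    rw [hEn, hreindex] at h1
    simp only [map_add, mul_add, Finset.sum_add_distrib, map_sum, Finset.mul_sum] at h1
    rw [Finset.sum_comm (s := Finset.range S) (t := Finset.range n)] at h1
    rw [← Finset.sum_congr rfl hpole]
    exact h1
  have hhs : ∀ m ∈ Finset.range S, (X : (ZMod p)[X]) ^ T ∣
      hasseDeriv (e + m) E + (hasseDeriv (e + m) (LJ.phiJ J w)).map f := by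
    intro m hm
    rw [Finset.mem_range] at hm
    rw [X_pow_dvd_iff]
    intro d hd
    rw [coeff_add, hasseDeriv_coeff, coeff_map, hasseDeriv_coeff,
      hvan (d + (e + m)) (by omega) (by omega)]
    rw [hf]
    simp
  -- the two polynomials
  have hr : (rJ e S K N c n).map f = ∑ a ∈ Finset.range n, C ((n - a : ℕ) : ZMod p) * Q a := by
    unfold rJ
    rw [Polynomial.map_sum]
    apply Finset.sum_congr rfl
    intro a ha
    rw [Finset.mem_range] at ha
    rw [Polynomial.map_mul, map_C, hQ]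
    dsimp only
    rw [Polynomial.map_taylor, hfn]
    congr 2
    rw [← Nat.cast_sub ha.le, hfn]
  have hfin : (rJ e S K N c n).map f =
      -(∑ m ∈ Finset.range S, P m * hasseDeriv (e + m) E) -
        X ^ p * ∑ a ∈ Finset.range n, Q a := by
    rw [hr]
    have h1 : ∑ a ∈ Finset.range n, (X ^ p + C ((n - a : ℕ) : ZMod p)) * Q a =
        X ^ p * ∑ a ∈ Finset.range n, Q a +
          ∑ a ∈ Finset.range n, C ((n - a : ℕ) : ZMod p) * Q a := by
      rw [Finset.mul_sum, ← Finset.sum_add_distrib]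
      apply Finset.sum_congr rfl
      intro a _
      ring
    rw [h1] at hrel
    linear_combination hrel
  have hsT : (sT e S K N J c w n).map f =
      ∑ m ∈ Finset.range S, P m * (hasseDeriv (e + m) (LJ.phiJ J w)).map f := by
    unfold sT
    rw [Polynomial.map_sum]
    apply Finset.sum_congr rfl
    intro m _
    rw [Polynomial.map_mul, hP]
    dsimp only
    rw [Polynomial.map_taylor, hfn]
  have hall : (rJ e S K N c n - sT e S K N J c w n).map f =
      -(∑ m ∈ Finset.range S, P m * (hasseDeriv (e + m) E + (hasseDeriv (e + m) (LJ.phiJ J w)).map f)) -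
        X ^ p * ∑ a ∈ Finset.range n, Q a := by
    rw [Polynomial.map_sub, hfin, hsT]
    simp only [mul_add, Finset.sum_add_distrib]
    ring
  rw [hall]
  apply dvd_sub
  · rw [dvd_neg]
    apply Finset.dvd_sum
    intro m hm
    exact Dvd.dvd.mul_left (hhs m hm) _
  · exact Dvd.dvd.mul_right (pow_dvd_pow _ (by omega)) _

end MP_a3a416_nt.LD
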