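import Pool.Agent.Lib.MP_a3a416_nt.LD.Ineq
import Pool.Agent.Lib.MP_a3a416_nt.LD.Jets
import Pool.Agent.Lib.MP_a3a416_nt.TW.Auxi

/-!
# LD-Auxi
The auxiliary polynomials.
PROOF.  Copy `exists_aux` of `TW/Auxi.lean` (use its `extT`, `regF_dvd`, .. by `open TW`), with `LD.card_ineq` and `LD.jets_modp`.  The hypothesis `hvan` of `jets_modp` for `w = comb r v (lam p)`: `l` even, `l = 2g`: `g = 0`: both
sides `0` (`coeff_phiJ`); `g ≥ 1`: `e ≤ 2g`, `2g + 2 ≤ e + S + T ≤ e + z + 1`, so `Bad` gives the hypothesis of `hE5 g` with `a = comb r v (lam p) g`, and `coeff_phiJ` gives `w g` (`g ≤ J` by `hJ`).  `l` odd: `hE4`, `coeff_phiJ`.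
-/

namespace MP_a3a416_nt.LD

open Polynomial MP_a3a416_nt.BB MP_a3a416_nt.TW

theorem exists_aux {e z S K N T J r x : ℕ} (v : ℕ → ℕ → ℤ) (hS1 : 1 ≤ S) (h8 : 8 * (r + 1) * K ≤ S) (hK : 2 ≤ K)
    (hK1 : e + 2 * S + 1 ≤ K * S) (hz : S + T ≤ z + 1) (hJ : e + z ≤ 2 * J + 1)
    (hx : 4 * (r + 1) * x ≤ S * N) (hN : e + S + T + 10 ≤ N)
    (Ps : Finset ℕ) (lam : ℕ → ℕ → ℤ) (hP : ∀ p ∈ Ps, p.Prime ∧ N < p ∧ p ≤ x ∧ Bad e z r v (lam p) p)
    (H : ℕ) (hH1 : 1 ≤ H)
    (hH : (3 * AJ e S K N) ^ (3 * (r + 1) * (K - 1)) * ∏ p ∈ Ps, p < (H + 1) ^ (2 * (r + 1))) :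
    ∃ c : ℕ × ℕ × ℕ → ℤ, (∃ x ∈ ix S K N, c x ≠ 0) ∧ (∀ x ∈ ix S K N, |c x| ≤ (H : ℤ)) ∧ REG e S K N c ∧
      ∀ p ∈ Ps, ∀ n < N, ∀ k < T,
        (p : ℤ) ∣ (rJ e S K N c n - sT e S K N J c (LI.comb r v (lam p)) n).coeff k := by
  classical
  have _ := hH1
  have hN1 : 1 ≤ N := by omega
  have hK0 : 1 ≤ K := by omega
  have hfact : ∀ p : Ps, Fact (p : ℕ).Prime := fun p => ⟨(hP p p.2).1⟩
  have hneZ : ∀ p : Ps, NeZero (p : ℕ) := fun p => ⟨(hP p p.2).1.ne_zero⟩
  have hNp : ∀ p : Ps, N < (p : ℕ) := fun p => (hP p p.2).2.1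
  have hex : ∀ p : Ps, ∃ E : (ZMod (p : ℕ))[X], E.natDegree < p ∧ E.coeff 0 = 0 ∧
      E.comp (X + 1) - E = (X + 1) ^ ((p : ℕ) - 2) ∧
      (∀ k, Odd k → k + 4 ≤ (p : ℕ) → E.coeff k = 0) ∧
      (∀ g, 1 ≤ g → 2 * g + 3 ≤ (p : ℕ) → ∀ a : ℤ,
        ((p : ℕ) : ℤ) ∣ (_root_.bernoulli ((p : ℕ) - 1 - 2 * g) - (a : ℚ)).num →
        E.coeff (2 * g) = -(a : ZMod (p : ℕ))) := fun p => by
    have := hfact p
    exact LI.exists_E_w (p : ℕ) (by have := hNp p; omega)
  choose E hE using hex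
  let V : Ps → Type := fun p => Fin (K * N + (p : ℕ)) → ZMod (p : ℕ)
  have hVfin : ∀ p : Ps, Finite (V p) := fun p => by
    have := hneZ p
    infer_instance
  let P2 : ∀ p : Ps, (ix S K N → ℤ) → (ZMod (p : ℕ))[X] := fun p c =>
    ∑ m ∈ Finset.range S, (PJ K N (extT S K N c) m).map (Int.castRingHom (ZMod (p : ℕ))) *
      hasseDeriv (e + m) (E p)
  have hP2add : ∀ p c c', P2 p (c + c') = P2 p c + P2 p c' := by
    intro p c c'
    simp only [P2, extT_add, PJ_add, Polynomial.map_add, add_mul, Finset.sum_add_distrib]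
  have hP2zero : ∀ p, P2 p 0 = 0 := by
    intro p
    simp only [P2, extT_zero, PJ_zero, Polynomial.map_zero, zero_mul, Finset.sum_const_zero]
  let φ : ∀ p : Ps, (ix S K N → ℤ) →+ V p := fun p =>
    { toFun := fun c => fun l => (P2 p c).coeff l
      map_zero' := by
        simp only [hP2zero, coeff_zero]
        rfl
      map_add' := by
        intro c c'
        simp only [hP2add, coeff_add]
        rfl }
  let ψ : (ix S K N → ℤ) →+ (Fin N × Fin (e + S + 1) → ℤ) :=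
    { toFun := fun c => fun k =>
        ((DJ K N (e + S + 1) : ℤ) * regF e S K N (extT S K N c) (k.1 : ℕ) ((k.2 : ℕ) + 1)) / (FN K N : ℤ)
      map_zero' := by
        funext k
        show ((DJ K N (e + S + 1) : ℤ) * regF e S K N (extT S K N 0) (k.1 : ℕ) ((k.2 : ℕ) + 1)) / (FN K N : ℤ) = 0
        rw [extT_zero, regF_zero, mul_zero, Int.zero_ediv]
      map_add' := by
        intro c c'
        funext k
        show ((DJ K N (e + S + 1) : ℤ) * regF e S K N (extT S K N (c + c')) (k.1 : ℕ) ((k.2 : ℕ) + 1)) / (FN K N : ℤ) =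
          ((DJ K N (e + S + 1) : ℤ) * regF e S K N (extT S K N c) (k.1 : ℕ) ((k.2 : ℕ) + 1)) / (FN K N : ℤ) +
          ((DJ K N (e + S + 1) : ℤ) * regF e S K N (extT S K N c') (k.1 : ℕ) ((k.2 : ℕ) + 1)) / (FN K N : ℤ)
        rw [extT_add, regF_add, mul_add]
        exact Int.add_ediv_of_dvd_left (regF_dvd hK0 _ k.1.2 (by omega)) }
  have hcardι : Fintype.card (ix S K N) = S * K * N := by
    rw [Fintype.card_coe]
    unfold ix
    rw [Finset.card_product, Finset.card_product, Finset.card_range, Finset.card_range, Finset.card_range]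
    ring
  have hψ : ∀ c : ix S K N → ℤ, (∀ i, |c i| ≤ (H : ℤ)) → ∀ k, |ψ c k| ≤ ((AJ e S K N * H : ℕ) : ℤ) := by
    intro c hc k
    obtain ⟨z, hz1, hz2⟩ := regF_bound (e := e) (S := S) (N := N) (H := H) hK0 (extT S K N c) (by
      intro x hx
      have := hc ⟨x, hx⟩
      rw [← extT_apply S K N c ⟨x, hx⟩] at this
      exact this) (a := (k.1 : ℕ)) (i := (k.2 : ℕ) + 1) k.1.2 (by omega)
    have h1 : ψ c k = z := by
      show ((DJ K N (e + S + 1) : ℤ) * regF e S K N (extT S K N c) (k.1 : ℕ) ((k.2 : ℕ) + 1)) / (FN K N : ℤ) = z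
      rw [hz1]
      exact Int.mul_ediv_cancel_left _ (by have := FN_pos K N; positivity)
    rw [h1]
    exact hz2
  have hV : ∏ p : Ps, Nat.card (V p) ≤ (∏ p ∈ Ps, p) ^ (K * N + x) := by
    rw [← Finset.prod_pow]
    rw [← Finset.prod_coe_sort Ps (fun p => p ^ (K * N + x))]
    apply Finset.prod_le_prod'
    intro p _
    have := hneZ p
    have h1 : Nat.card (V p) = (p : ℕ) ^ (K * N + (p : ℕ)) := by
      simp only [V]
      rw [Nat.card_fun]
      simp only [Nat.card_eq_fintype_card, ZMod.card, Fintype.card_fin]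
    rw [h1]
    exact Nat.pow_le_pow_right (by have := hNp p; omega) (by have := (hP p p.2).2.2.1; omega)
  have hPpos : 1 ≤ ∏ p ∈ Ps, p := Finset.one_le_prod' (fun p hp => (hP p hp).1.one_le)
  have hApos : 1 ≤ AJ e S K N := by
    unfold AJ
    have := DJ_pos K N (e + S + 1)
    exact Nat.mul_pos this (by positivity)
  have hcard : (2 * (AJ e S K N * H) + 1) ^ Fintype.card (Fin N × Fin (e + S + 1)) * ∏ p : Ps, Nat.card (V p) <
      (H + 1) ^ Fintype.card (ix S K N) := by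
    rw [hcardι, Fintype.card_prod, Fintype.card_fin, Fintype.card_fin]
    exact lt_of_le_of_lt (Nat.mul_le_mul_left _ hV) (MP_a3a416_nt.LD.card_ineq hS1 h8 hK hK1 hN1 hx hApos hPpos hH)
  obtain ⟨c, hc0, hcH, hc, hψc⟩ := LJ.siegel_mixed (ι := ix S K N) (κ := Fin N × Fin (e + S + 1)) Ps H
    (AJ e S K N * H) V φ ψ hψ hcard
  have hREG : REG e S K N (extT S K N c) := by
    intro a ha i hi1 hi2
    have h1 := congrFun hψc (⟨a, ha⟩, ⟨i - 1, by omega⟩)
    have h2 : ((DJ K N (e + S + 1) : ℤ) * regF e S K N (extT S K N c) a (i - 1 + 1)) / (FN K N : ℤ) = 0 := h1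
    have h3 : i - 1 + 1 = i := by omega
    rw [h3] at h2
    have h4 := Int.ediv_mul_cancel (regF_dvd (e := e) (S := S) hK0 (extT S K N c) ha hi1)
    rw [h2, zero_mul] at h4
    have h5 : (DJ K N (e + S + 1) : ℤ) ≠ 0 := by have := DJ_pos K N (e + S + 1); positivity
    exact (mul_eq_zero.mp h4.symm).resolve_left h5
  refine ⟨extT S K N c, ?_, ?_, hREG, ?_⟩
  · by_contra hcon
    push Not at hcon
    apply hc0
    funext x
    rw [← extT_apply S K N c x]
    exact hcon x x.2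
  · intro x hx
    have := hcH ⟨x, hx⟩
    rw [← extT_apply S K N c ⟨x, hx⟩] at this
    exact this
  · intro p hp n hn k hk
    have hφ := hc ⟨p, hp⟩
    have : Fact p.Prime := ⟨(hP p hp).1⟩
    have hpN : N < p := (hP p hp).2.1
    have hbad : MP_a3a416_nt.LD.Bad e z r v (lam p) p := (hP p hp).2.2.2
    obtain ⟨hE1, hE2, hE3, hE4, hE5⟩ := hE ⟨p, hp⟩
    have hφ2 : ∀ l, l < K * N + p → (P2 ⟨p, hp⟩ c).coeff l = 0 := by
      intro l hl
      exact congrFun hφ ⟨l, hl⟩
    have hKN : 1 ≤ K * N := Nat.one_le_iff_ne_zero.2 (by positivity)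
    have hd2 : (P2 ⟨p, hp⟩ c).natDegree < K * N + p := by
      have h7 : (P2 ⟨p, hp⟩ c).natDegree ≤ K * N + p - 1 := by
        apply natDegree_sum_le_of_forall_le
        intro m hm
        refine natDegree_mul_le.trans ?_
        have h8 := natDegree_PJ_lt hK0 hN1 (extT S K N c) m
        have h9 : ((PJ K N (extT S K N c) m).map (Int.castRingHom (ZMod p))).natDegree ≤
          (PJ K N (extT S K N c) m).natDegree := natDegree_map_le
        have h10 : (hasseDeriv (e + m) (E ⟨p, hp⟩)).natDegree ≤ (E ⟨p, hp⟩).natDegree :=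
          (natDegree_hasseDeriv_le _ _).trans (Nat.sub_le _ _)
        have h11 : (E ⟨p, hp⟩).natDegree < p := hE1
        have h12 : (((PJ K N (extT S K N c) m).map (Int.castRingHom (ZMod p))).natDegree +
          (hasseDeriv (e + m) (E ⟨p, hp⟩)).natDegree) ≤ K * N + p - 1 := by omega
        exact h12
      omega
    have hM : P2 ⟨p, hp⟩ c = 0 := by
      ext l
      rw [coeff_zero]
      rcases Nat.lt_or_ge l (K * N + p) with hl | hl
      · exact hφ2 l hl
      · exact coeff_eq_zero_of_natDegree_lt (lt_of_lt_of_le hd2 hl)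
    have hvan : ∀ l, e ≤ l → l + 2 ≤ e + S + T → (E ⟨p, hp⟩).coeff l =
        -(((LJ.phiJ J (LI.comb r v (lam p))).coeff l : ℤ) : ZMod p) := by
      intro l hl1 hl2
      rw [coeff_phiJ]
      rcases Nat.even_or_odd l with he | ho
      · obtain ⟨g, hg⟩ := he
        have hg2 : l = 2 * g := by omega
        rcases Nat.eq_zero_or_pos g with hg0 | hg0
        · have hl0 : l = 0 := by omega
          rw [hl0, hE2, if_neg (by omega), Int.cast_zero, neg_zero]
        · have h1 := hE5 g hg0 (by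
            have h2 : 2 * g + 3 ≤ p := by omega
            exact h2) (LI.comb r v (lam p) g) (hbad g hg0 (by omega) (by omega))
          have h3 : l / 2 = g := by omega
          rw [h3, if_pos ⟨⟨g, hg⟩, hg0, by omega⟩, hg2, h1]
      · have h1 := hE4 l ho (by
          have h2 : l + 4 ≤ p := by omega
          exact h2)
        rw [h1, if_neg, Int.cast_zero, neg_zero]
        rintro ⟨he, -⟩
        exact (Nat.not_even_iff_odd.2 ho) he
    exact MP_a3a416_nt.LD.jets_modp p e S K N T J (extT S K N c) (LI.comb r v (lam p)) hS1 hpN (by omega)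
      (E ⟨p, hp⟩) hE3 hvan hREG hM hn hk

end MP_a3a416_nt.LD
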