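import Pool.Agent.Lib.MP_a3a416_nt.LI.RelDefs
import Pool.Agent.Lib.MP_a3a416_nt.BB.FinalAux

/-!
# LD-Base
`1` is not a relation.
-/

namespace MP_a3a416_nt.LD

theorem card_primes_ge {x : ℕ} (hx : 16 ≤ x) :
    (1 / 4) * ((x : ℝ) / Real.log x) ≤ (((Finset.Icc 1 x).filter (fun p : ℕ => p.Prime)).card : ℝ) := by
  have h1 := BB.primeCounting_ge hx
  have h2 : Nat.primeCounting x = ((Finset.Icc 1 x).filter (fun p : ℕ => p.Prime)).card := by
    rw [Nat.primeCounting, Nat.primeCounting', Nat.count_eq_card_filter_range]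
    congr 1
    ext p
    rw [Finset.mem_filter, Finset.mem_filter, Finset.mem_range, Finset.mem_Icc]
    constructor
    · rintro ⟨h, hp⟩
      exact ⟨⟨hp.one_lt.le, by omega⟩, hp⟩
    · rintro ⟨h, hp⟩
      exact ⟨by omega, hp⟩
  rw [h2] at h1
  linarith

theorem single_not_rel (J : ℕ) : (Pi.single 0 1 : Fin (J+1) → ℚ) ∉ LI.Rel J := by
  intro h
  have h1 : LI.IsRel J (Pi.single 0 1 : Fin (J+1) → ℚ) := h
  have hval : ∀ p : ℕ, LI.relVal J (Pi.single 0 1 : Fin (J+1) → ℚ) p = 1 := by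
    intro p
    unfold LI.relVal
    rw [Pi.single_eq_same, Finset.sum_eq_zero, add_zero]
    intro g _
    rw [Pi.single_eq_of_ne (Fin.succ_ne_zero g), zero_mul]
  obtain ⟨x₀, hx₀⟩ := h1 (1 / 8) (by norm_num)
  have h2 := hx₀ (max 16 x₀) (le_max_right _ _)
  have hx16 : 16 ≤ max 16 x₀ := le_max_left _ _
  generalize max 16 x₀ = x at h2 hx16
  have h3 := card_primes_ge hx16
  have h4 : (Finset.Icc 1 x).filter (fun p : ℕ => p.Prime ∧
      ¬ (p : ℤ) ∣ (LI.relVal J (Pi.single 0 1 : Fin (J+1) → ℚ) p).num) =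
      (Finset.Icc 1 x).filter (fun p : ℕ => p.Prime) := by
    apply Finset.filter_congr
    intro p _
    rw [hval p]
    constructor
    · exact fun h => h.1
    · intro hp
      refine ⟨hp, ?_⟩
      intro hdvd
      have h5 : (p : ℤ) ∣ 1 := by simpa using hdvd
      have h6 : p ∣ 1 := by exact_mod_cast h5
      exact hp.one_lt.ne' (Nat.dvd_one.1 h6)
  rw [h4] at h2
  have hx' : (16 : ℝ) ≤ x := by exact_mod_cast hx16
  have hlx : 0 < Real.log x := Real.log_pos (by linarith)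
  have h5 : 0 < (x : ℝ) / Real.log x := by positivity
  linarith

end MP_a3a416_nt.LD
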