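import Pool.Agent.Lib.MP_a3a416_nt.LI.RelMod

/-!
# LD-CombW
PROOF.  Copy `exists_comb` (and the private lemmas) of `LI/RelMod.lean`: only the relations `Pi.single i 1 - m i ∈ Rel J` with `i.val ∈ W` are used, `D = T.card`, `idx : Fin D → Fin (J+1)` an enumeration of `T`
(`T.equivFin.symm` or `T.orderEmbOfFin`): `m i = ∑_{l : Fin D} (m i (idx l)) • Pi.single (idx l) 1` because `m i` vanishes outside `T`.
-/

namespace MP_a3a416_nt.LD

open Finset

private theorem pn_iff {p : ℕ} (hp : p.Prime) (x : ℚ) : (p : ℤ) ∣ x.num ↔ padicNorm p x < 1 := by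
  have := Fact.mk hp
  have hx : padicNorm p x = padicNorm p (x.num : ℚ) / padicNorm p ((x.den : ℕ) : ℚ) := by
    conv_lhs => rw [← Rat.num_div_den x]
    rw [padicNorm.div]
  constructor
  · intro h
    have hden : ¬ p ∣ x.den := by
      intro h2
      have h3 : p ∣ x.num.natAbs := Int.natCast_dvd.mp h
      have := Nat.dvd_gcd h3 h2
      rw [x.reduced.gcd_eq_one] at this
      exact hp.one_lt.ne' (Nat.dvd_one.1 this)
    rw [hx, (padicNorm.nat_eq_one_iff x.den).2 hden, div_one]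
    exact (padicNorm.int_lt_one_iff x.num).2 h
  · intro h
    by_contra hc
    have h1 : padicNorm p (x.num : ℚ) = 1 := (padicNorm.int_eq_one_iff x.num).2 hc
    have h2 : padicNorm p ((x.den : ℕ) : ℚ) ≤ 1 := padicNorm.of_nat x.den
    have h3 : 0 < padicNorm p ((x.den : ℕ) : ℚ) := by
      refine lt_of_le_of_ne (padicNorm.nonneg _) (Ne.symm ?_)
      apply padicNorm.nonzero
      exact_mod_cast x.den_nz
    rw [hx, h1] at h
    rw [div_lt_one h3] at h
    linarith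

private theorem pn_le {p : ℕ} (hp : p.Prime) {x : ℚ} (h : ¬ p ∣ x.den) : padicNorm p x ≤ 1 := by
  have := Fact.mk hp
  have hx : padicNorm p x = padicNorm p (x.num : ℚ) / padicNorm p ((x.den : ℕ) : ℚ) := by
    conv_lhs => rw [← Rat.num_div_den x]
    rw [padicNorm.div]
  rw [hx, (padicNorm.nat_eq_one_iff x.den).2 h, div_one]
  exact padicNorm.of_int x.num

/-- `β_0 = 1`, `β_g = B_{p-1-2g}`. -/
private noncomputable def beta (J p : ℕ) (i : Fin (J+1)) : ℚ :=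
  if i = 0 then 1 else _root_.bernoulli (p - 1 - 2 * i.val)

private theorem relVal_eq (J p : ℕ) (a : Fin (J+1) → ℚ) :
    LI.relVal J a p = ∑ i, a i * beta J p i := by
  rw [Fin.sum_univ_succ]
  unfold LI.relVal beta
  simp [Fin.succ_ne_zero]

private theorem beta_den {J p : ℕ} (hp : p.Prime) (h : 2 * J + 5 ≤ p) (i : Fin (J+1)) :
    ¬ p ∣ (beta J p i).den := by
  unfold beta
  split_ifs with h0
  · simpa using hp.one_lt.ne'
  · have hi : 1 ≤ i.val := by
      rcases Nat.eq_zero_or_pos i.val with h1 | h1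
      · exact absurd (Fin.ext h1) h0
      · exact h1
    have hi2 : i.val ≤ J := by omega
    have hodd : p % 2 = 1 := by
      rcases hp.eq_two_or_odd with h2 | h2
      · omega
      · exact h2
    obtain ⟨k, hk⟩ : ∃ k, p - 1 - 2 * i.val = 2 * k := ⟨(p - 1 - 2 * i.val) / 2, by omega⟩
    rw [hk]
    intro hdvd
    have h3 := hdvd.trans (Pool.Agent.Lib.MP_a3a416_nt.bernoulli_den_dvd k)
    rw [hp.dvd_primorial_iff] at h3
    omega

private theorem exists_lam {p : ℕ} (hp : p.Prime) {M : ℕ} (hM : ¬ p ∣ M) {x : ℚ} (hx : ¬ p ∣ x.den) :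
    ∃ z : ℤ, padicNorm p (x - M * z) < 1 := by
  have := Fact.mk hp
  have hMp : ((M : ℕ) : ZMod p) ≠ 0 := by
    rwa [Ne, ZMod.natCast_eq_zero_iff]
  have hxp : ((x.den : ℕ) : ZMod p) ≠ 0 := by
    rwa [Ne, ZMod.natCast_eq_zero_iff]
  obtain ⟨z, hz⟩ := ZMod.intCast_surjective (((x.num : ℤ) : ZMod p) / (((M : ℕ) : ZMod p) * ((x.den : ℕ) : ZMod p)))
  refine ⟨z, ?_⟩
  have h1 : (((x.num - M * x.den * z : ℤ)) : ZMod p) = 0 := by
    push_cast
    rw [hz]
    field_simp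
    simp
  rw [ZMod.intCast_zmod_eq_zero_iff_dvd] at h1
  have h2 : x - M * z = ((x.num - M * x.den * z : ℤ) : ℚ) / ((x.den : ℕ) : ℚ) := by
    have hd : ((x.den : ℕ) : ℚ) ≠ 0 := by exact_mod_cast x.den_nz
    push_cast
    rw [eq_div_iff hd, sub_mul, Rat.mul_den_eq_num]
    ring
  rw [h2, padicNorm.div, (padicNorm.nat_eq_one_iff x.den).2 hx, div_one]
  exact (padicNorm.int_lt_one_iff _).2 h1

private theorem linalgW (J : ℕ) (W : Finset ℕ) (T : Finset (Fin (J + 1)))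
    (hT : ∀ i : Fin (J + 1), i.val ∈ W → ∃ m : Fin (J + 1) → ℚ, (∀ j, j ∉ T → m j = 0) ∧
        (Pi.single i 1 - m : Fin (J + 1) → ℚ) ∈ LI.Rel J) :
    ∃ (idx : Fin T.card → Fin (J+1)) (m : Fin (J+1) → Fin T.card → ℚ),
    ∀ i, i.val ∈ W → (Pi.single i 1 - ∑ l, m i l • Pi.single (idx l) 1 : Fin (J+1) → ℚ) ∈ LI.Rel J := by
  classical
  choose! mm hm1 hm2 using hT
  refine ⟨fun l => (T.equivFin.symm l : Fin (J+1)), fun i l => mm i (T.equivFin.symm l : Fin (J+1)), ?_⟩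
  intro i hi
  have h1 : (∑ l : Fin T.card, mm i (T.equivFin.symm l : Fin (J+1)) •
      (Pi.single ((T.equivFin.symm l : Fin (J+1))) 1 : Fin (J+1) → ℚ)) = mm i := by
    rw [Equiv.sum_comp T.equivFin.symm (fun t : T => mm i (t : Fin (J+1)) •
      (Pi.single (t : Fin (J+1)) 1 : Fin (J+1) → ℚ)),
      Finset.sum_coe_sort T (fun t => mm i t • (Pi.single t 1 : Fin (J+1) → ℚ))]
    funext j
    rw [Finset.sum_apply]
    have h2 : ∀ t ∈ T, (mm i t • (Pi.single t 1 : Fin (J+1) → ℚ)) j = if t = j then mm i t else 0 := by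
      intro t _
      rw [Pi.smul_apply, smul_eq_mul, Pi.single_apply]
      by_cases h : t = j
      · subst h
        simp
      · rw [if_neg (fun h' => h h'.symm), if_neg h, mul_zero]
    rw [Finset.sum_congr rfl h2, Finset.sum_ite_eq']
    by_cases hj : j ∈ T
    · rw [if_pos hj]
    · rw [if_neg hj, hm1 i hi j hj]
  rw [h1]
  exact hm2 i hi

private theorem large (B : ℕ) {ε : ℝ} (hε : 0 < ε) : ∃ x₀ : ℕ, ∀ x : ℕ, x₀ ≤ x →
    (B : ℝ) ≤ ε * (x / Real.log x) := by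
  refine ⟨⌈(2 * (B : ℝ) / ε) ^ 2⌉₊ + 2, ?_⟩
  intro x hx
  have hx2 : 2 ≤ x := by omega
  have hx0 : (0 : ℝ) < x := by exact_mod_cast (by omega : 0 < x)
  have hlog : 0 < Real.log x := Real.log_pos (by exact_mod_cast (by omega : 1 < x))
  have h1 : (2 * B / ε) ^ 2 ≤ (x : ℝ) := by
    have := Nat.le_ceil ((2 * (B : ℝ) / ε) ^ 2)
    have h2 : ((⌈(2 * (B : ℝ) / ε) ^ 2⌉₊ : ℕ) : ℝ) ≤ x := Nat.cast_le.2 (by omega)
    linarith
  have h2 : 2 * B / ε ≤ √(x : ℝ) := Real.le_sqrt_of_sq_le h1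
  have h3 : Real.log x ≤ 2 * √(x : ℝ) := by
    have h4 : Real.log x = 2 * Real.log (√(x : ℝ)) := by
      rw [Real.log_sqrt hx0.le]; ring
    rw [h4]
    have := Real.log_le_sub_one_of_pos (Real.sqrt_pos.2 hx0)
    linarith
  have h5 : √(x : ℝ) / 2 ≤ x / Real.log x := by
    rw [le_div_iff₀ hlog]
    have h6 : √(x : ℝ) * √(x : ℝ) = x := Real.mul_self_sqrt hx0.le
    have h7 : 0 ≤ √(x : ℝ) := Real.sqrt_nonneg _
    nlinarith
  have h8 : (B : ℝ) ≤ ε * (√(x : ℝ) / 2) := by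
    rw [div_le_iff₀ hε] at h2
    linarith
  exact h8.trans (mul_le_mul_of_nonneg_left h5 hε.le)

open Classical in
private theorem combW_main (J : ℕ) (W : Finset ℕ) (hW : W ⊆ Finset.Icc 1 J) (D : ℕ)
    (idx : Fin D → Fin (J+1)) (m : Fin (J+1) → Fin D → ℚ)
    (hrel : ∀ i : Fin (J+1), i.val ∈ W →
      (Pi.single i 1 - ∑ l, m i l • Pi.single (idx l) 1 : Fin (J+1) → ℚ) ∈ LI.Rel J) :
    ∃ v : ℕ → ℕ → ℤ, ∀ ε : ℝ, 0 < ε → ∃ x₀ : ℕ, ∀ x : ℕ, x₀ ≤ x →
    (((Finset.Icc 1 x).filter (fun p : ℕ => p.Prime)).card : ℝ) - ε * (x / Real.log x) ≤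
      (((Finset.Icc 1 x).filter (fun p : ℕ => p.Prime ∧ ∃ lam : ℕ → ℤ,
        ∀ g ∈ W, (p : ℤ) ∣ (_root_.bernoulli (p - 1 - 2 * g) -
          ((LI.comb D v lam g : ℤ) : ℚ)).num)).card : ℝ) := by
  obtain ⟨Mden, hMden⟩ : ∃ M : ℕ, M = ∏ i, ∏ l, (m i l).den := ⟨_, rfl⟩
  have hMpos : 0 < Mden := by
    rw [hMden]
    exact Finset.prod_pos fun i _ => Finset.prod_pos fun l _ => (m i l).den_pos
  have hdvd : ∀ i l, (m i l).den ∣ Mden := by
    intro i l
    rw [hMden]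
    exact (Finset.dvd_prod_of_mem (fun l => (m i l).den) (Finset.mem_univ l)).trans
      (Finset.dvd_prod_of_mem (fun i => ∏ l, (m i l).den) (Finset.mem_univ i))
  have hk : ∀ i l, ∃ k : ℤ, (k : ℚ) = Mden * m i l := by
    intro i l
    obtain ⟨c, hc⟩ := hdvd i l
    refine ⟨c * (m i l).num, ?_⟩
    rw [hc]
    push_cast
    rw [mul_comm ((m i l).den : ℚ) (c : ℚ), mul_assoc, mul_comm ((m i l).den : ℚ), Rat.mul_den_eq_num]
  choose k hk using hk
  obtain ⟨v, hv0, hv1⟩ : ∃ v : ℕ → ℕ → ℤ, (∀ g, v 0 g = 0) ∧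
      ∀ (l : Fin D) (g : ℕ) (hg : g < J + 1), v (l.val + 1) g = k ⟨g, hg⟩ l := by
    refine ⟨fun l g => if h : 0 < l ∧ l - 1 < D ∧ g < J + 1 then k ⟨g, h.2.2⟩ ⟨l - 1, h.2.1⟩ else 0,
      fun g => ?_, fun l g hg => ?_⟩
    · exact dif_neg (fun h => absurd h.1 (lt_irrefl 0))
    · exact dif_pos (show 0 < l.val + 1 ∧ l.val + 1 - 1 < D ∧ g < J + 1 from
        ⟨by omega, by have := l.2; omega, hg⟩)
  refine ⟨v, ?_⟩
  intro ε hε
  have hJ0 : (0 : ℝ) < 2 * (J + 1) := by positivity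
  have hex : ∀ i : Fin (J+1), ∃ x₀ : ℕ, ∀ x : ℕ, x₀ ≤ x →
      (((Finset.Icc 1 x).filter (fun p : ℕ => p.Prime ∧ i.val ∈ W ∧
        ¬ (p : ℤ) ∣ (LI.relVal J (Pi.single i 1 - ∑ l, m i l • Pi.single (idx l) 1) p).num)).card : ℝ) ≤
      ε / (2 * (J + 1)) * (x / Real.log x) := by
    intro i
    by_cases hi : i.val ∈ W
    · obtain ⟨x₀, h⟩ := hrel i hi (ε / (2 * (J + 1))) (by positivity)
      refine ⟨x₀, fun x hx => ?_⟩
      simp only [hi, true_and]
      exact h x hx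
    · refine ⟨0, fun x _ => ?_⟩
      simp only [hi, false_and, and_false, Finset.filter_false, Finset.card_empty, Nat.cast_zero]
      exact mul_nonneg (by positivity) (div_nonneg (Nat.cast_nonneg _) (Real.log_natCast_nonneg _))
  choose X hX using hex
  obtain ⟨x₁, hx₁⟩ := large (Mden + 2 * J + 5) (half_pos hε)
  refine ⟨x₁ + ∑ i, X i, ?_⟩
  intro x hx
  have hXi : ∀ i, X i ≤ x := by
    intro i
    have := Finset.single_le_sum (f := X) (fun _ _ => Nat.zero_le _) (Finset.mem_univ i)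
    omega
  have hB := hx₁ x (by omega)
  set Gd := ((Finset.Icc 1 x).filter (fun p : ℕ => p.Prime ∧ ∃ lam : ℕ → ℤ,
        ∀ g ∈ W, (p : ℤ) ∣ (_root_.bernoulli (p - 1 - 2 * g) -
          ((LI.comb D v lam g : ℤ) : ℚ)).num)) with hGd
  set Ex : Fin (J+1) → Finset ℕ := fun i => (Finset.Icc 1 x).filter (fun p : ℕ => p.Prime ∧ i.val ∈ W ∧
        ¬ (p : ℤ) ∣ (LI.relVal J (Pi.single i 1 - ∑ l, m i l • Pi.single (idx l) 1) p).num) with hEx
  have hsub : (Finset.Icc 1 x).filter (fun p : ℕ => p.Prime) ⊆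
      Gd ∪ (Finset.Icc 1 (Mden + 2 * J + 5) ∪ Finset.univ.biUnion Ex) := by
    intro p hp
    rw [Finset.mem_filter] at hp
    obtain ⟨hpx, hpp⟩ := hp
    have hp1 := hpp.one_lt
    rw [Finset.mem_union, Finset.mem_union, Finset.mem_biUnion]
    by_cases hB' : p ≤ Mden + 2 * J + 5
    · exact Or.inr (Or.inl (Finset.mem_Icc.2 ⟨by omega, hB'⟩))
    by_cases hE : ∃ i ∈ Finset.univ, p ∈ Ex i
    · exact Or.inr (Or.inr hE)
    refine Or.inl ?_
    rw [hGd]
    simp only [Finset.mem_filter]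
    refine ⟨hpx, hpp, ?_⟩
    have := Fact.mk hpp
    have hE' : ∀ i : Fin (J+1), i.val ∈ W →
        (p : ℤ) ∣ (LI.relVal J (Pi.single i 1 - ∑ l, m i l • Pi.single (idx l) 1) p).num := by
      intro i hiW
      by_contra hc
      exact hE ⟨i, Finset.mem_univ i, by
        rw [hEx]
        exact Finset.mem_filter.2 ⟨hpx, hpp, hiW, hc⟩⟩
    have hpM : ¬ p ∣ Mden := fun h => by
      have := Nat.le_of_dvd hMpos h
      omega
    have hlam : ∀ l : Fin D, ∃ z : ℤ, padicNorm p (beta J p (idx l) - Mden * z) < 1 := fun l =>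
      exists_lam hpp hpM (beta_den hpp (by omega) (idx l))
    choose z hz using hlam
    obtain ⟨lam, hlamz⟩ : ∃ lam : ℕ → ℤ, ∀ l : Fin D, lam l.val = z l :=
      ⟨fun l => if h : l < D then z ⟨l, h⟩ else 0, fun l => dif_pos l.2⟩
    refine ⟨lam, ?_⟩
    intro g hgW
    have hg := hW hgW
    rw [Finset.mem_Icc] at hg
    have hgJ : g < J + 1 := by omega
    have hcomb : LI.comb D v lam g = ∑ l : Fin D, z l * k ⟨g, hgJ⟩ l := by
      unfold LI.comb
      rw [hv0, zero_add, Finset.sum_range]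
      refine Finset.sum_congr rfl fun l _ => ?_
      rw [hlamz l, hv1 l g hgJ]
    rw [hcomb, pn_iff hpp]
    have hβ : _root_.bernoulli (p - 1 - 2 * g) = beta J p ⟨g, hgJ⟩ := by
      unfold beta
      rw [if_neg]
      intro h
      have h0 : g = 0 := congrArg Fin.val h
      omega
    have hrv : LI.relVal J (Pi.single (⟨g, hgJ⟩ : Fin (J+1)) 1 - ∑ l, m ⟨g, hgJ⟩ l • Pi.single (idx l) 1) p =
        beta J p ⟨g, hgJ⟩ - ∑ l, m ⟨g, hgJ⟩ l * beta J p (idx l) := by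
      rw [relVal_eq]
      have h1 : ∀ i : Fin (J+1), (Pi.single (⟨g, hgJ⟩ : Fin (J+1)) (1:ℚ) -
          ∑ l, m ⟨g, hgJ⟩ l • Pi.single (idx l) 1 : Fin (J+1) → ℚ) i * beta J p i =
          (Pi.single (⟨g, hgJ⟩ : Fin (J+1)) (1:ℚ) : Fin (J+1) → ℚ) i * beta J p i -
          ∑ l, m ⟨g, hgJ⟩ l * ((Pi.single (idx l) (1:ℚ) : Fin (J+1) → ℚ) i * beta J p i) := by
        intro i
        simp only [Pi.sub_apply, Finset.sum_apply, Pi.smul_apply, smul_eq_mul]
        rw [sub_mul, Finset.sum_mul]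
        congr 1
        refine Finset.sum_congr rfl fun l _ => ?_
        ring
      rw [Finset.sum_congr rfl fun i _ => h1 i, Finset.sum_sub_distrib, Finset.sum_comm]
      congr 1
      · simp [Pi.single_apply]
      · refine Finset.sum_congr rfl fun l _ => ?_
        rw [← Finset.mul_sum]
        simp [Pi.single_apply]
    have heq : beta J p ⟨g, hgJ⟩ - ((∑ l : Fin D, z l * k ⟨g, hgJ⟩ l : ℤ) : ℚ) =
        LI.relVal J (Pi.single (⟨g, hgJ⟩ : Fin (J+1)) 1 - ∑ l, m ⟨g, hgJ⟩ l • Pi.single (idx l) 1) p +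
        ∑ l, m ⟨g, hgJ⟩ l * (beta J p (idx l) - Mden * z l) := by
      rw [hrv]
      push_cast
      have h2 : ∀ l : Fin D, (z l : ℚ) * (k ⟨g, hgJ⟩ l : ℚ) =
          m ⟨g, hgJ⟩ l * beta J p (idx l) - m ⟨g, hgJ⟩ l * (beta J p (idx l) - Mden * z l) := by
        intro l
        rw [hk]
        ring
      rw [Finset.sum_congr rfl fun l _ => h2 l, Finset.sum_sub_distrib]
      ring
    rw [hβ, heq]
    refine lt_of_le_of_lt padicNorm.nonarchimedean (max_lt ((pn_iff hpp _).1 (hE' ⟨g, hgJ⟩ hgW)) ?_)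
    refine padicNorm.sum_lt' (fun l _ => ?_) one_pos
    rw [padicNorm.mul]
    have h3 : padicNorm p (m ⟨g, hgJ⟩ l) ≤ 1 := pn_le hpp fun h => hpM (h.trans (hdvd _ _))
    calc padicNorm p (m ⟨g, hgJ⟩ l) * padicNorm p (beta J p (idx l) - Mden * z l)
        ≤ 1 * padicNorm p (beta J p (idx l) - Mden * z l) :=
          mul_le_mul_of_nonneg_right h3 (padicNorm.nonneg _)
      _ < 1 := by rw [one_mul]; exact hz l
  have hcard := Finset.card_le_card hsub
  have hcard2 : ((Finset.Icc 1 x).filter (fun p : ℕ => p.Prime)).card ≤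
      Gd.card + ((Mden + 2 * J + 5) + ∑ i, (Ex i).card) := by
    refine hcard.trans ((Finset.card_union_le _ _).trans ?_)
    refine Nat.add_le_add_left ((Finset.card_union_le _ _).trans ?_) _
    rw [Nat.card_Icc]
    refine Nat.add_le_add (by omega) Finset.card_biUnion_le
  have hcard3 : (((Finset.Icc 1 x).filter (fun p : ℕ => p.Prime)).card : ℝ) ≤
      (Gd.card : ℝ) + (((Mden + 2 * J + 5 : ℕ) : ℝ) + ∑ i, ((Ex i).card : ℝ)) := by
    exact_mod_cast hcard2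
  have hsum : ∑ i, ((Ex i).card : ℝ) ≤ ε / 2 * (x / Real.log x) := by
    calc ∑ i, ((Ex i).card : ℝ) ≤ ∑ i : Fin (J+1), ε / (2 * (J + 1)) * (x / Real.log x) :=
          Finset.sum_le_sum fun i _ => hX i x (hXi i)
      _ = ε / 2 * (x / Real.log x) := by
          rw [Finset.sum_const, Finset.card_univ, Fintype.card_fin, nsmul_eq_mul]
          push_cast
          field_simp
  have hfin : ε / 2 * (x / Real.log x) + ε / 2 * (x / Real.log x) = ε * (x / Real.log x) := by ring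
  linarith

open Classical in
theorem exists_combW (J : ℕ) (W : Finset ℕ) (hW : W ⊆ Finset.Icc 1 J) (T : Finset (Fin (J + 1)))
    (hT : ∀ i : Fin (J + 1), i.val ∈ W → ∃ m : Fin (J + 1) → ℚ, (∀ j, j ∉ T → m j = 0) ∧
        (Pi.single i 1 - m : Fin (J + 1) → ℚ) ∈ LI.Rel J) :
    ∃ v : ℕ → ℕ → ℤ, ∀ ε : ℝ, 0 < ε → ∃ x₀ : ℕ, ∀ x : ℕ, x₀ ≤ x →
    (((Finset.Icc 1 x).filter (fun p : ℕ => p.Prime)).card : ℝ) - ε * (x / Real.log x) ≤
      (((Finset.Icc 1 x).filter (fun p : ℕ => p.Prime ∧ ∃ lam : ℕ → ℤ,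
        ∀ g ∈ W, (p : ℤ) ∣ (_root_.bernoulli (p - 1 - 2 * g) -
          ((LI.comb T.card v lam g : ℤ) : ℚ)).num)).card : ℝ) := by
  obtain ⟨idx, m, hrel⟩ := linalgW J W T hT
  exact combW_main J W hW T.card idx m hrel

end MP_a3a416_nt.LD
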