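import Pool.Agent.Lib.MP_a3a416_nt.LD.Theta
import Pool.Agent.Lib.MP_a3a416_nt.BB.FinalAux

/-!
# LD-Count
Parameters and counting.
PROOF (as `TW/Count.lean`; read it first, everything is the same up to `r`).  WLOG `v l g = 0` for `g` outside the window (replace `v l g` by `if 1 ≤ g ∧ e ≤ 2 * g ∧ 2 * g + 1 ≤ e + z then v l g else 0`; `Bad` does not change).
`C` large (`C ≥ 1000`).  `x ≥ 1000`, `z ≤ √x`.  `S := z/5` (natural division), `K := (e+S+1)/S + 2`, `T := 3S+2K`, `J := e + z`.  Then `e+2S+1 ≤ KS ≤ e+3S+1` (if `S ≥ 1`).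
TRIVIAL CASE `S = 0` or `S < 8(r+1)K`: number of primes `≤ x` is `≤ 5 x/log x`, and `(r+1)^2 (e+z)^2/z^3 log(2z) ≥ c > 0`: if `S = 0`, `z ≤ 4`, `(e+z)^2/z^3 ≥ 1/z ≥ 1/4`; if `S ≥ 1`: `z ≤ 5S + 4 ≤ 9 S`,
`K ≤ (e+S+1)/S + 2 ≤ 4 (e+z)/S` (real division), so `S^2 < 8 (r+1) K S ≤ 32 (r+1)(e+z)`, `z^2 ≤ 81 * 32 (r+1)(e+z)`, hence `(r+1)^2 (e+z)^2 ≥ z^4 / 2592^2` and `(r+1)^2 (e+z)^2/z^3 ≥ z/2592^2`, and `log(2z) ≥ log 2`.
MAIN CASE `8(r+1)K ≤ S`: `T + S = 4S + 2K ≤ 5S ≤ z`.  `N := 4(r+1)x/S + 1` (natural division): `4(r+1)x ≤ SN`, `N ≥ 4x/S ≥ 20 x/z ≥ 20 C (e+z) ≥ 2(T+e+S+1)+10`; `N ≤ 5(r+1)x/S` (real division, `S ≤ z ≤ x`).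
`exp(x/z) ≤ exp(K N)` as `K N ≥ N ≥ 4x/S ≥ x/z`.  `∑_{bad p ≤ x} log p ≤ θ(N) + theta_bad ≤ 2N + C₁ (r+1) K² N (1 + log (T+e+S)) ≤ C₂ (r+1)^2 K² (x/S) (1 + log(T+e+S))`.  `S ≥ z/9`, `K ≤ 4(e+z)/S ≤ 36 (e+z)/z`,
`T + e + S ≤ e + z`, and `log(e+z) ≤ C₃ log(2z)` because `S ≥ 8K` gives `e + z ≤ z²`-type bound (see TW/Count).  So `∑ log p ≤ C₄ (r+1)^2 (e+z)²/z³ log(2z) x`.
`count_le_of_sum_log` (BB/FinalAux.lean): number `≤ √x + 2 (∑ log p)/log x`, and `√x ≤ C₅ ((e+z)²/z³) log(2z) x/log x` as in `TW/Count.lean`; `(r+1)^2 ≥ 1`.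
-/

namespace MP_a3a416_nt.LD

open Polynomial MP_a3a416_nt.BB MP_a3a416_nt.TW

/-- Chebyshev's upper bound for a set of primes. -/
private theorem card_primes_upperLD {x : ℕ} (hx : 2 ≤ x) (A : Finset ℕ) (hA : A ⊆ Finset.Icc 1 x)
    (hp : ∀ p ∈ A, p.Prime) : (A.card : ℝ) ≤ 5 * (x / Real.log x) := by
  have hx' : (2 : ℝ) ≤ x := by exact_mod_cast hx
  have hlx : 0 < Real.log x := Real.log_pos (by linarith)
  have hT : ∑ p ∈ A, Real.log p ≤ Real.log 4 * x := by
    have h1 : ∑ p ∈ A, Real.log p ≤ Chebyshev.theta x := by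
      rw [Chebyshev.theta]
      apply Finset.sum_le_sum_of_subset_of_nonneg
      · intro p hpA
        have h2 := Finset.mem_Icc.1 (hA hpA)
        rw [Finset.mem_filter, Finset.mem_Ioc, Nat.floor_natCast]
        exact ⟨⟨by omega, h2.2⟩, hp p hpA⟩
      · intro p hp' _
        have h3 := (Finset.mem_filter.1 hp').2.one_lt
        exact Real.log_nonneg (by exact_mod_cast h3.le)
    exact h1.trans (Chebyshev.theta_le_log4_mul_x (by positivity))
  have h := count_le_of_sum_log hx A hA hT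
  have hl4 : Real.log 4 ≤ 1.4 := by
    rw [show (4 : ℝ) = 2 ^ 2 by norm_num, Real.log_pow]
    have := Real.log_two_lt_d9
    push_cast
    linarith
  have hsq : √(x : ℝ) ≤ 2 * (x / Real.log x) := by
    rw [mul_div_assoc', le_div_iff₀ hlx]
    have h2 : Real.log x ≤ 2 * √(x : ℝ) := by
      have h3 : Real.log (√(x : ℝ)) = Real.log x / 2 := Real.log_sqrt (by positivity)
      have h4 := Real.log_le_sub_one_of_pos (x := √(x : ℝ)) (Real.sqrt_pos.2 (by linarith))
      linarith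
    have h5 : √(x : ℝ) * √(x : ℝ) = x := Real.mul_self_sqrt (by positivity)
    nlinarith [Real.sqrt_nonneg (x : ℝ)]
  have h6 : 2 * (Real.log 4 * x) / Real.log x = 2 * Real.log 4 * (x / Real.log x) := by ring
  rw [h6] at h
  have h7 : 0 ≤ (x : ℝ) / Real.log x := by positivity
  nlinarith

open Classical in
theorem count_LD : ∃ C : ℝ, 0 < C ∧ ∀ (e z r x : ℕ) (v : ℕ → ℕ → ℤ), 1 ≤ z → C * ((z : ℝ) * (e + z)) ≤ x →
    (∀ l ≤ r, ∀ g : ℕ, 1 ≤ g → e ≤ 2 * g → 2 * g + 1 ≤ e + z →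
      ((|v l g| : ℤ) : ℝ) ≤ Real.exp ((x : ℝ) / z)) →
    (((Finset.Icc 1 x).filter (fun p : ℕ => p.Prime ∧ ∃ lam : ℕ → ℤ, Bad e z r v lam p)).card : ℝ) ≤
      C * (((r : ℝ) + 1) ^ 2 * (((e : ℝ) + z) ^ 2 * Real.log (2 * z) / (z : ℝ) ^ 3) * (x / Real.log x)) := by
  obtain ⟨C₁, hC₁, hth⟩ := theta_bad
  refine ⟨60000 + 22000 * C₁, by positivity, ?_⟩
  intro e z r x v hz hx hv
  -- the values outside the window do not matter
  obtain ⟨v', hv'⟩ : ∃ v' : ℕ → ℕ → ℤ, v' = fun l g =>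
      if 1 ≤ g ∧ e ≤ 2 * g ∧ 2 * g + 1 ≤ e + z then v l g else 0 := ⟨_, rfl⟩
  have hbadv : ∀ p : ℕ, (∃ lam : ℕ → ℤ, Bad e z r v lam p) ↔ ∃ lam : ℕ → ℤ, Bad e z r v' lam p := by
    intro p
    have hcomb : ∀ (lam : ℕ → ℤ) (g : ℕ), 1 ≤ g → e ≤ 2 * g → 2 * g + 1 ≤ e + z →
        LI.comb r v' lam g = LI.comb r v lam g := by
      intro lam g h1 h2 h3
      have h4 : ∀ l, v' l g = v l g := by
        intro l
        rw [hv']
        exact if_pos ⟨h1, h2, h3⟩
      unfold LI.comb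
      simp only [h4]
    constructor
    · rintro ⟨lam, h⟩
      refine ⟨lam, fun g h1 h2 h3 => ?_⟩
      rw [hcomb lam g h1 h2 h3]
      exact h g h1 h2 h3
    · rintro ⟨lam, h⟩
      refine ⟨lam, fun g h1 h2 h3 => ?_⟩
      rw [← hcomb lam g h1 h2 h3]
      exact h g h1 h2 h3
  simp only [hbadv]
  have hvb : ∀ l ≤ r, ∀ g : ℕ, ((|v' l g| : ℤ) : ℝ) ≤ Real.exp ((x : ℝ) / z) := by
    intro l hl g
    rw [hv']
    by_cases h : 1 ≤ g ∧ e ≤ 2 * g ∧ 2 * g + 1 ≤ e + z
    · simp only [if_pos h]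
      exact hv l hl g h.1 h.2.1 h.2.2
    · simp only [if_neg h, abs_zero, Int.cast_zero]
      positivity
  obtain ⟨R, hR⟩ : ∃ R : ℝ, R = (r : ℝ) + 1 := ⟨_, rfl⟩
  have hR1 : 1 ≤ R := by
    rw [hR]
    have : (0 : ℝ) ≤ r := Nat.cast_nonneg r
    linarith
  have hR0 : 0 < R := by linarith
  have hRR : R ≤ R ^ 2 := by nlinarith
  rw [← hR]
  have hz' : (1 : ℝ) ≤ z := by exact_mod_cast hz
  have he' : (0 : ℝ) ≤ e := by positivity
  have hz0 : (0 : ℝ) < z := by linarith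
  have ht : (z : ℝ) ≤ e + z := by linarith
  have ht1 : (1 : ℝ) ≤ e + z := by linarith
  have hzt : (z : ℝ) * z ≤ z * (e + z) := mul_le_mul_of_nonneg_left ht hz0.le
  have hzt1 : (1 : ℝ) ≤ z * (e + z) := by nlinarith
  have hx1000 : 1000 * ((z : ℝ) * (e + z)) ≤ x := by
    have h1 : 0 ≤ (59000 + 22000 * C₁) * ((z : ℝ) * (e + z)) := by positivity
    linarith
  have hxge : (1000 : ℝ) ≤ x := by linarith
  have hx2 : 1000 ≤ x := by exact_mod_cast hxge
  have hx0 : (0 : ℝ) < x := by linarith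
  have hlx : 0 < Real.log x := Real.log_pos (by linarith)
  have hl2 := Real.log_two_gt_d9
  have hlz : Real.log 2 ≤ Real.log (2 * z) := Real.log_le_log (by norm_num) (by linarith)
  have hlz0 : 0 < Real.log (2 * z) := by linarith
  have hX0 : 0 ≤ (x : ℝ) / Real.log x := by positivity
  have hz3 : (0 : ℝ) < (z : ℝ) ^ 3 := by positivity
  have hQ0 : 0 ≤ ((e : ℝ) + z) ^ 2 * Real.log (2 * z) / (z : ℝ) ^ 3 := by positivity
  -- the trivial bound
  have htriv : (z : ℝ) ^ 3 ≤ 1296 * (R ^ 2 * ((e : ℝ) + z) ^ 2) →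
      (((Finset.Icc 1 x).filter (fun p : ℕ => p.Prime ∧ ∃ lam : ℕ → ℤ, Bad e z r v' lam p)).card : ℝ) ≤
      (60000 + 22000 * C₁) *
        (R ^ 2 * (((e : ℝ) + z) ^ 2 * Real.log (2 * z) / (z : ℝ) ^ 3) * (x / Real.log x)) := by
    intro h
    refine (card_primes_upperLD (by omega) _ (Finset.filter_subset _ _)
      (fun p hp => (Finset.mem_filter.1 hp).2.1)).trans ?_
    have h1 : 1 ≤ 1900 * (R ^ 2 * (((e : ℝ) + z) ^ 2 * Real.log (2 * z) / (z : ℝ) ^ 3)) := by
      rw [mul_div_assoc', mul_div_assoc', le_div_iff₀ hz3, one_mul]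
      have h2 : (R ^ 2 * ((e : ℝ) + z) ^ 2) * 0.69 ≤ (R ^ 2 * (e + z) ^ 2) * Real.log (2 * z) :=
        mul_le_mul_of_nonneg_left (by linarith) (by positivity)
      have h3 : (0 : ℝ) ≤ R ^ 2 * ((e : ℝ) + z) ^ 2 := by positivity
      linarith
    calc 5 * ((x : ℝ) / Real.log x) ≤ 5 * ((x : ℝ) / Real.log x) *
          (1900 * (R ^ 2 * (((e : ℝ) + z) ^ 2 * Real.log (2 * z) / (z : ℝ) ^ 3))) :=
          le_mul_of_one_le_right (by positivity) h1
      _ = 9500 * (R ^ 2 * (((e : ℝ) + z) ^ 2 * Real.log (2 * z) / (z : ℝ) ^ 3) *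
          (x / Real.log x)) := by
          ring
      _ ≤ (60000 + 22000 * C₁) *
        (R ^ 2 * (((e : ℝ) + z) ^ 2 * Real.log (2 * z) / (z : ℝ) ^ 3) * (x / Real.log x)) :=
          mul_le_mul_of_nonneg_right (by linarith) (by positivity)
  have hR2 : (1 : ℝ) ≤ R ^ 2 := one_le_pow₀ hR1
  obtain ⟨S, hS⟩ : ∃ S, S = z / 5 := ⟨_, rfl⟩
  rcases Nat.eq_zero_or_pos S with hS0 | hS0
  · apply htriv
    have h1 : z ≤ 4 := by omega
    have h1' : (z : ℝ) ≤ 4 := by exact_mod_cast h1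
    have h2 : (z : ℝ) ^ 2 ≤ (e + z) ^ 2 := pow_le_pow_left₀ hz0.le ht 2
    have h3 : (z : ℝ) ^ 3 = z * z ^ 2 := by ring
    have h4 : (z : ℝ) * z ^ 2 ≤ 4 * (e + z) ^ 2 := mul_le_mul h1' h2 (by positivity) (by norm_num)
    have h5 : ((e : ℝ) + z) ^ 2 ≤ R ^ 2 * ((e : ℝ) + z) ^ 2 :=
      le_mul_of_one_le_left (by positivity) hR2
    rw [h3]
    linarith [sq_nonneg ((e : ℝ) + z)]
  obtain ⟨K, hK⟩ : ∃ K, K = (e + S + 1) / S + 2 := ⟨_, rfl⟩
  have hq1 := Nat.div_mul_le_self (e + S + 1) S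
  have hq2 := Nat.lt_div_mul_add (a := e + S + 1) hS0
  have hKS : K * S = (e + S + 1) / S * S + 2 * S := by rw [hK, add_mul]
  have hK1 : e + 2 * S + 1 ≤ K * S := by omega
  have hK2 : K * S ≤ e + 3 * S + 1 := by omega
  have h5S : 5 * S ≤ z := by omega
  have hz9 : z ≤ 9 * S := by omega
  have hS1' : (1 : ℝ) ≤ S := by exact_mod_cast hS0
  have hS0' : (0 : ℝ) < S := by linarith
  have h5S' : 5 * (S : ℝ) ≤ z := by exact_mod_cast h5S
  have hz9' : (z : ℝ) ≤ 9 * S := by exact_mod_cast hz9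
  have hK1' : (e : ℝ) + 2 * S + 1 ≤ K * S := by exact_mod_cast hK1
  have hK2' : (K : ℝ) * S ≤ e + 3 * S + 1 := by exact_mod_cast hK2
  by_cases h8 : 8 * (r + 1) * K ≤ S
  swap
  · apply htriv
    have h1 : S ≤ 8 * (r + 1) * K := by omega
    have h1' : (S : ℝ) ≤ 8 * R * K := by
      rw [hR]
      exact_mod_cast h1
    have h2 : (S : ℝ) * S ≤ 8 * R * (K * S) := by
      have := mul_le_mul_of_nonneg_right h1' hS0'.le
      linarith
    have h3 : (S : ℝ) * S ≤ 16 * R * (e + z) := by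
      have h3' : (K : ℝ) * S ≤ 2 * (e + z) := by linarith
      have h3'' := mul_le_mul_of_nonneg_left h3' (by positivity : (0 : ℝ) ≤ 8 * R)
      linarith
    have h4 : (z : ℝ) * z ≤ 81 * (S * S) := by
      calc (z : ℝ) * z ≤ (9 * S) * (9 * S) := mul_le_mul hz9' hz9' hz0.le (by positivity)
        _ = 81 * (S * S) := by ring
    have h5 : (z : ℝ) * z ≤ 1296 * (R * (e + z)) := by linarith
    have h6 : (z : ℝ) ^ 3 = z * (z * z) := by ring
    rw [h6]
    calc (z : ℝ) * (z * z) ≤ (e + z) * (1296 * (R * (e + z))) :=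
          mul_le_mul ht h5 (by positivity) (by positivity)
      _ = 1296 * (R * ((e : ℝ) + z) ^ 2) := by ring
      _ ≤ 1296 * (R ^ 2 * ((e : ℝ) + z) ^ 2) := by gcongr
  · -- the main case
    have hKpos : 1 ≤ K := by
      rw [hK]
      exact le_trans (by norm_num) (Nat.le_add_left 2 _)
    have hK1r : (1 : ℝ) ≤ K := by exact_mod_cast hKpos
    have h8K : 8 * K ≤ S := by
      refine le_trans ?_ h8
      exact Nat.mul_le_mul_right K (by omega)
    have h8' : 8 * (K : ℝ) ≤ S := by exact_mod_cast h8K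
    obtain ⟨T, hT⟩ : ∃ T, T = 3 * S + 2 * K := ⟨_, rfl⟩
    obtain ⟨N, hN⟩ : ∃ N, N = 4 * (r + 1) * x / S + 1 := ⟨_, rfl⟩
    have hN1 : 4 * (r + 1) * x ≤ S * N := by
      rw [hN]
      exact (Nat.lt_mul_div_succ (4 * (r + 1) * x) hS0).le
    have hN1r : 4 * R * (x : ℝ) ≤ S * N := by
      rw [hR]
      exact_mod_cast hN1
    have hN1' : 4 * (x : ℝ) ≤ S * N := by
      have : (x : ℝ) ≤ R * x := le_mul_of_one_le_left hx0.le hR1
      linarith
    have hST : S + T ≤ z + 1 := by omega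
    have hN3 : 4000 * ((e : ℝ) + z) ≤ N := by
      have h1 : 4000 * ((z : ℝ) * (e + z)) ≤ S * N := by linarith
      have h2 : (S : ℝ) * (e + z) ≤ z * (e + z) :=
        mul_le_mul_of_nonneg_right (by linarith) (by linarith)
      have h3 : (S : ℝ) * (4000 * (e + z)) ≤ S * N := by linarith
      exact le_of_mul_le_mul_left h3 hS0'
    have hN3' : 4000 * (e + z) ≤ N := by exact_mod_cast hN3
    have hN4 : 2 * (T + e + S + 1) + 10 ≤ N := by omega
    have hNn0 : (0 : ℝ) ≤ N := by positivity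
    have hxz : (x : ℝ) / z ≤ K * N := by
      have h1 : (x : ℝ) / z ≤ N := by
        rw [div_le_iff₀ hz0]
        have h2 : (S : ℝ) * N ≤ z * N := mul_le_mul_of_nonneg_right (by linarith) hNn0
        linarith
      exact h1.trans (le_mul_of_one_le_left hNn0 hK1r)
    have hB := hth e z S K N T (e + z) r x v' hS0 h8 hK1 hK2 hT hST (by omega) hN1 hN4
      (fun l hl g _ => (hvb l hl g).trans (Real.exp_le_exp.2 hxz))
    rw [← hR] at hB
    have hSx : (S : ℝ) ≤ x := by nlinarith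
    have hN2 : (N : ℝ) ≤ 5 * R * (x / S) := by
      have h1 : ((4 * (r + 1) * x / S : ℕ) : ℝ) ≤ ((4 * (r + 1) * x : ℕ) : ℝ) / S := Nat.cast_div_le
      have h2 : (1 : ℝ) ≤ x / S := by
        rw [one_le_div hS0']
        exact hSx
      have h2' : (1 : ℝ) ≤ R * (x / S) := one_le_mul_of_one_le_of_one_le hR1 h2
      rw [hN]
      push_cast at h1 ⊢
      rw [← hR] at h1
      have h4 : (4 : ℝ) * R * x / S = 4 * (R * (x / S)) := by ring
      rw [h4] at h1
      linarith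
    have hN0 : (0 : ℝ) ≤ N := by positivity
    have hN5 : (N : ℝ) ≤ 45 * R * (x / z) := by
      refine hN2.trans ?_
      rw [mul_div_assoc', mul_div_assoc', div_le_div_iff₀ hS0' hz0]
      have := mul_le_mul_of_nonneg_left hz9' (by positivity : (0 : ℝ) ≤ 5 * R * x)
      linarith
    have hKt : (K : ℝ) ≤ 9 * ((e + z) / z) := by
      rw [mul_div_assoc', le_div_iff₀ hz0]
      have h1 : (K : ℝ) * z ≤ K * (9 * S) := mul_le_mul_of_nonneg_left hz9' (by linarith)
      linarith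
    have hlog : 1 + Real.log ((T : ℝ) + e + S) ≤ 3 * Real.log (2 * z) := by
      have h1 : (T : ℝ) + e + S ≤ z * z := by
        have h2 : T + e + S ≤ e + z := by omega
        have h2' : (T : ℝ) + e + S ≤ e + z := by exact_mod_cast h2
        have h3 : 8 * ((K : ℝ) * S) ≤ S * S := by
          have := mul_le_mul_of_nonneg_right h8' hS0'.le
          linarith
        have h4 : (S : ℝ) * S ≤ S * z := mul_le_mul_of_nonneg_left (by linarith) hS0'.le
        have h5 : 5 * ((S : ℝ) * z) ≤ z * z := by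
          have := mul_le_mul_of_nonneg_right h5S' hz0.le
          linarith
        have h6 : (e : ℝ) ≤ S * z / 8 := by linarith
        have h7 : (8 : ℝ) * z ≤ S * z := mul_le_mul_of_nonneg_right (by linarith) hz0.le
        linarith
      have h0 : (0 : ℝ) < (T : ℝ) + e + S := by
        have : (0 : ℝ) ≤ T := by positivity
        linarith
      have h2 : Real.log ((T : ℝ) + e + S) ≤ 2 * Real.log z := by
        have h3 := Real.log_le_log h0 h1
        rw [Real.log_mul hz0.ne' hz0.ne'] at h3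
        linarith
      have h3 : Real.log (2 * z) = Real.log 2 + Real.log z := Real.log_mul (by norm_num) hz0.ne'
      have h4 : Real.log 2 ≤ Real.log z := Real.log_le_log (by norm_num) (by linarith)
      rw [h3]
      linarith
    have hlog0 : 0 ≤ Real.log ((T : ℝ) + e + S) := by
      apply Real.log_nonneg
      have : (0 : ℝ) ≤ T := by positivity
      linarith
    have hsplit : ∑ p ∈ (Finset.Icc 1 x).filter
        (fun p : ℕ => p.Prime ∧ ∃ lam : ℕ → ℤ, Bad e z r v' lam p), Real.log p ≤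
        ∑ p ∈ (Finset.Icc 1 N).filter (fun p : ℕ => p.Prime), Real.log p +
        ∑ p ∈ (Finset.Icc (N + 1) x).filter
          (fun p : ℕ => p.Prime ∧ ∃ lam : ℕ → ℤ, Bad e z r v' lam p), Real.log p := by
      have hdisj : Disjoint ((Finset.Icc 1 N).filter (fun p : ℕ => p.Prime))
          ((Finset.Icc (N + 1) x).filter
            (fun p : ℕ => p.Prime ∧ ∃ lam : ℕ → ℤ, Bad e z r v' lam p)) := by
        rw [Finset.disjoint_left]
        intro p hp hp'
        rw [Finset.mem_filter, Finset.mem_Icc] at hp hp'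
        omega
      rw [← Finset.sum_union hdisj]
      apply Finset.sum_le_sum_of_subset_of_nonneg
      · intro p hp
        rw [Finset.mem_filter, Finset.mem_Icc] at hp
        rw [Finset.mem_union, Finset.mem_filter, Finset.mem_filter, Finset.mem_Icc, Finset.mem_Icc]
        by_cases h : p ≤ N
        · exact Or.inl ⟨⟨hp.1.1, h⟩, hp.2.1⟩
        · exact Or.inr ⟨⟨by omega, hp.1.2⟩, hp.2⟩
      · intro p hp _
        have h1 : 1 < p := by
          rw [Finset.mem_union, Finset.mem_filter, Finset.mem_filter] at hp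
          rcases hp with h | h
          · exact h.2.one_lt
          · exact h.2.1.one_lt
        exact Real.log_nonneg (by exact_mod_cast h1.le)
    have hA : ∑ p ∈ (Finset.Icc 1 N).filter (fun p : ℕ => p.Prime), Real.log p ≤ 2 * N := by
      have h1 : ∑ p ∈ (Finset.Icc 1 N).filter (fun p : ℕ => p.Prime), Real.log p ≤
          Chebyshev.theta N := by
        rw [Chebyshev.theta, Nat.floor_natCast]
        apply le_of_eq
        apply Finset.sum_congr _ (fun _ _ => rfl)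
        ext p
        rw [Finset.mem_filter, Finset.mem_filter, Finset.mem_Icc, Finset.mem_Ioc]
        rfl
      have h2 : Chebyshev.theta N ≤ Real.log 4 * N := Chebyshev.theta_le_log4_mul_x (by positivity)
      have hl4 : Real.log 4 ≤ 2 := by
        rw [show (4 : ℝ) = 2 ^ 2 by norm_num, Real.log_pow]
        have := Real.log_two_lt_d9
        push_cast
        linarith
      nlinarith
    have hsum : ∑ p ∈ (Finset.Icc 1 x).filter
        (fun p : ℕ => p.Prime ∧ ∃ lam : ℕ → ℤ, Bad e z r v' lam p), Real.log p ≤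
        10935 * (2 + C₁) * (R ^ 2 * (((e : ℝ) + z) ^ 2 * Real.log (2 * z) / (z : ℝ) ^ 3) * x) := by
      have h1 : 2 * (N : ℝ) ≤ 2 * (R * (K : ℝ) ^ 2 * N * (1 + Real.log ((T : ℝ) + e + S))) := by
        have h2 : (1 : ℝ) ≤ R * (K : ℝ) ^ 2 :=
          one_le_mul_of_one_le_of_one_le hR1 (one_le_pow₀ hK1r)
        have h3 : (N : ℝ) ≤ R * (K : ℝ) ^ 2 * N := le_mul_of_one_le_left hN0 h2
        have h4 : R * (K : ℝ) ^ 2 * N ≤ R * (K : ℝ) ^ 2 * N * (1 + Real.log ((T : ℝ) + e + S)) :=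
          le_mul_of_one_le_right (by positivity) (by linarith)
        linarith
      have h5 : R * (K : ℝ) ^ 2 * N * (1 + Real.log ((T : ℝ) + e + S)) ≤
          R * (9 * (((e : ℝ) + z) / z)) ^ 2 * (45 * R * (x / z)) * (3 * Real.log (2 * z)) := by
        apply mul_le_mul _ hlog (by linarith) (by positivity)
        apply mul_le_mul _ hN5 hN0 (by positivity)
        apply mul_le_mul_of_nonneg_left _ hR0.le
        exact pow_le_pow_left₀ (by linarith) hKt 2
      have h6 : R * (9 * (((e : ℝ) + z) / z)) ^ 2 * (45 * R * (x / z)) * (3 * Real.log (2 * z)) =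
          10935 * (R ^ 2 * (((e : ℝ) + z) ^ 2 * Real.log (2 * z) / (z : ℝ) ^ 3) * x) := by
        field_simp
        ring
      rw [h6] at h5
      have h7 := mul_le_mul_of_nonneg_left h5 hC₁.le
      linarith
    have hcount := count_le_of_sum_log (by omega : 2 ≤ x) _ (Finset.filter_subset _ _) hsum
    -- the term `√x`
    have hsq : √(x : ℝ) ≤
        5 * (((e : ℝ) + z) ^ 2 * Real.log (2 * z) / (z : ℝ) ^ 3 * (x / Real.log x)) := by
      set u : ℝ := √(x : ℝ) with hu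
      have hu2 : u * u = x := Real.mul_self_sqrt hx0.le
      have hu0 : 0 < u := Real.sqrt_pos.2 hx0
      have hzu : (z : ℝ) ≤ u := by
        rw [hu]
        apply Real.le_sqrt_of_sq_le
        nlinarith
      have hw1 : 1 ≤ u / z := by
        rw [one_le_div hz0]
        exact hzu
      have hlogx : Real.log x ≤ 5 * (u / z * Real.log (2 * z)) := by
        have h1 : Real.log x = 2 * Real.log u := by
          rw [← hu2, Real.log_mul hu0.ne' hu0.ne']
          ring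
        have h2 : Real.log u = Real.log (u / z) + Real.log z := by
          rw [Real.log_div hu0.ne' hz0.ne']
          ring
        have h3 : Real.log (u / z) ≤ u / z - 1 := Real.log_le_sub_one_of_pos (by positivity)
        have h4 : Real.log z ≤ Real.log (2 * z) := Real.log_le_log hz0 (by linarith)
        have h5 : Real.log (2 * z) ≤ u / z * Real.log (2 * z) :=
          le_mul_of_one_le_left hlz0.le hw1
        have h6 : u / z * 0.69 ≤ u / z * Real.log (2 * z) :=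
          mul_le_mul_of_nonneg_left (by linarith) (by positivity)
        rw [h1, h2]
        linarith
      have h7 : 1 / (z : ℝ) ≤ ((e : ℝ) + z) ^ 2 / (z : ℝ) ^ 3 := by
        rw [div_le_div_iff₀ hz0 hz3]
        have h8 : (z : ℝ) ^ 2 ≤ (e + z) ^ 2 := pow_le_pow_left₀ hz0.le ht 2
        have h9 := mul_le_mul_of_nonneg_right h8 hz0.le
        linarith
      have h8 : u * Real.log x ≤ 5 * (x * (1 / z * Real.log (2 * z))) := by
        have h9 := mul_le_mul_of_nonneg_left hlogx hu0.le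
        have h10 : u * (5 * (u / z * Real.log (2 * z))) =
            5 * (x * (1 / z * Real.log (2 * z))) := by
          rw [← hu2]
          ring
        linarith
      have h9 : 5 * ((x : ℝ) * (1 / z * Real.log (2 * z))) ≤
          5 * (x * (((e : ℝ) + z) ^ 2 / (z : ℝ) ^ 3 * Real.log (2 * z))) := by
        have h10 := mul_le_mul_of_nonneg_right h7 hlz0.le
        have h11 := mul_le_mul_of_nonneg_left h10 hx0.le
        linarith
      have h12 : 5 * (((e : ℝ) + z) ^ 2 * Real.log (2 * z) / (z : ℝ) ^ 3 * (x / Real.log x)) =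
          5 * (x * (((e : ℝ) + z) ^ 2 / (z : ℝ) ^ 3 * Real.log (2 * z))) / Real.log x := by
        ring
      rw [h12, le_div_iff₀ hlx]
      linarith
    have h13 : 2 * (10935 * (2 + C₁) *
        (R ^ 2 * (((e : ℝ) + z) ^ 2 * Real.log (2 * z) / (z : ℝ) ^ 3) * x)) / Real.log x =
        (43740 + 21870 * C₁) *
          (R ^ 2 * (((e : ℝ) + z) ^ 2 * Real.log (2 * z) / (z : ℝ) ^ 3) * (x / Real.log x)) := by
      ring
    rw [h13] at hcount
    have h14 : 0 ≤ ((e : ℝ) + z) ^ 2 * Real.log (2 * z) / (z : ℝ) ^ 3 * (x / Real.log x) :=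
      mul_nonneg hQ0 hX0
    have h14' : ((e : ℝ) + z) ^ 2 * Real.log (2 * z) / (z : ℝ) ^ 3 * (x / Real.log x) ≤
        R ^ 2 * (((e : ℝ) + z) ^ 2 * Real.log (2 * z) / (z : ℝ) ^ 3) * (x / Real.log x) := by
      have := mul_le_mul_of_nonneg_right hR2 h14
      linarith
    have h15 : 0 ≤ C₁ * (R ^ 2 * (((e : ℝ) + z) ^ 2 * Real.log (2 * z) / (z : ℝ) ^ 3) *
        (x / Real.log x)) := mul_nonneg hC₁.le (h14.trans h14')
    nlinarith

end MP_a3a416_nt.LD
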