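import Pool.Agent.Lib.MP_a3a416_nt.TW.Defs

/-!
# LD-Defs
Local dimension: the bad primes of the window `(e, e + z]` modulo a space of dimension `r`.
The auxiliary polynomials are those of `TW` (`PJ`, `rJ`, `REG`, `FN`, `DJ`, `AJ`, `EJ`).
-/

namespace MP_a3a416_nt.LD

open Polynomial MP_a3a416_nt.BB MP_a3a416_nt.TW

/-- `∑_m P_m(n+t) φ_w^[e+m](t)` times `FN K N`. -/
noncomputable def sT (e S K N J : ℕ) (c : ℕ × ℕ × ℕ → ℤ) (w : ℕ → ℤ) (n : ℕ) : ℤ[X] :=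
  ∑ m ∈ Finset.range S, taylor (n : ℤ) (PJ K N c m) * hasseDeriv (e + m) (LJ.phiJ J w)

/-- `B_{p-1-2g} ≡ (comb r v lam) g` modulo `p` for all `g ≥ 1` with `e ≤ 2g < e + z`. -/
def Bad (e z r : ℕ) (v : ℕ → ℕ → ℤ) (lam : ℕ → ℤ) (p : ℕ) : Prop :=
  ∀ g : ℕ, 1 ≤ g → e ≤ 2 * g → 2 * g + 1 ≤ e + z →
    (p : ℤ) ∣ (_root_.bernoulli (p - 1 - 2 * g) - ((LI.comb r v lam g : ℤ) : ℚ)).num

theorem coeff_phiJ (J : ℕ) (w : ℕ → ℤ) (l : ℕ) :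
    (LJ.phiJ J w).coeff l = if Even l ∧ 1 ≤ l / 2 ∧ l / 2 ≤ J then w (l / 2) else 0 := by
  unfold LJ.phiJ
  rw [finsetSum_coeff]
  have h1 : ∀ g ∈ Finset.Icc 1 J, (C (w g) * X ^ (2 * g) : ℤ[X]).coeff l =
      if l = 2 * g then w g else 0 := by
    intro g _
    rw [coeff_C_mul, coeff_X_pow]
    split_ifs <;> simp
  rw [Finset.sum_congr rfl h1]
  by_cases h : ∃ g ∈ Finset.Icc 1 J, l = 2 * g
  · obtain ⟨g, hg, rfl⟩ := h
    rw [Finset.sum_eq_single g]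
    · rw [Finset.mem_Icc] at hg
      have h2 : 2 * g / 2 = g := by omega
      rw [if_pos rfl, h2, if_pos ⟨⟨g, by ring⟩, hg.1, hg.2⟩]
    · intro b _ hb
      rw [if_neg]
      omega
    · intro h
      exact absurd hg h
  · rw [Finset.sum_eq_zero, if_neg]
    · rintro ⟨⟨a, ha⟩, h2, h3⟩
      exact h ⟨l / 2, Finset.mem_Icc.2 ⟨h2, h3⟩, by omega⟩
    · intro g hg
      rw [if_neg]
      intro hl
      exact h ⟨g, hg, hl⟩

end MP_a3a416_nt.LD
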