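import Pool.Agent.Lib.MP_a3a416_nt.LD.Count
import Pool.Agent.Lib.MP_a3a416_nt.LD.CombW
import Pool.Agent.Lib.MP_a3a416_nt.LD.Base

/-!
# LD-DimW
The dimension bound from `count_LD`.
PROOF (as `HK.dimension_k`, shorter).  `W` = the window (a subset of `Icc 1 J`), `exists_combW` gives `v`; `r = T.card`.  Take `x` large (depending on everything): `x ≥ C z (e+z)`, `|v l g| ≤ exp(x/z)` for `l ≤ r` and `g` in the window
(a finite maximum `B`; `B ≤ x/z ≤ exp(x/z)`), `ε = 1/8`, `primeCounting x ≥ (1/4) x/log x` (`BB.primeCounting_ge`, `LD.card_primes_ge`): so the number of primes with a `lam` is `≥ (1/8) x/log x`; they satisfy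
`Bad e z r v lam p`.  `count_LD`: `1/8 ≤ C (r+1)^2 ((e+z)^2 log(2z)/z^3)`.  So `(r+1)^2 ≥ z^3/(8C (e+z)^2 log(2z))` and `r + 1 ≤ 2 r` (`r ≥ 1` as `0 ∈ T`).  `log(2z) > 0`.
-/

namespace MP_a3a416_nt.LD

open Finset

theorem dim_W : ∃ c : ℝ, 0 < c ∧ ∀ (e z J : ℕ) (T : Finset (Fin (J + 1))), 1 ≤ z → e + z ≤ 2 * J + 1 →
    (0 : Fin (J + 1)) ∈ T →
    (∀ i : Fin (J + 1), 1 ≤ i.val → e ≤ 2 * i.val → 2 * i.val + 1 ≤ e + z →
      ∃ m : Fin (J + 1) → ℚ, (∀ j, j ∉ T → m j = 0) ∧ (Pi.single i 1 - m : Fin (J + 1) → ℚ) ∈ LI.Rel J) →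
    c * √((z : ℝ) ^ 3 / (((e : ℝ) + z) ^ 2 * Real.log (2 * z))) ≤ (T.card : ℝ) := by
  classical
  obtain ⟨C, hC, hcount⟩ := count_LD
  have hs : 0 < √(32 * C) := Real.sqrt_pos.2 (by positivity)
  refine ⟨1 / √(32 * C), by positivity, ?_⟩
  intro e z J T hz hJ h0 hrel
  have hz' : (1 : ℝ) ≤ z := by exact_mod_cast hz
  have hz0 : (0 : ℝ) < z := by linarith
  have hez : (0 : ℝ) < (e : ℝ) + z := by positivity
  have hlog : 0 < Real.log (2 * z) := Real.log_pos (by linarith)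
  set W := (Finset.Icc 1 J).filter (fun g => e ≤ 2 * g ∧ 2 * g + 1 ≤ e + z) with hW
  have hWmem : ∀ g : ℕ, g ∈ W ↔ 1 ≤ g ∧ e ≤ 2 * g ∧ 2 * g + 1 ≤ e + z := by
    intro g
    rw [hW, Finset.mem_filter, Finset.mem_Icc]
    constructor
    · rintro ⟨⟨h1, -⟩, h2, h3⟩
      exact ⟨h1, h2, h3⟩
    · rintro ⟨h1, h2, h3⟩
      exact ⟨⟨h1, by omega⟩, h2, h3⟩
  obtain ⟨v, hv⟩ := exists_combW J W (Finset.filter_subset _ _) T (by
    intro i hi
    obtain ⟨h1, h2, h3⟩ := (hWmem _).1 hi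
    exact hrel i h1 h2 h3)
  set r := T.card with hr
  have hr1 : 1 ≤ r := Finset.card_pos.2 ⟨0, h0⟩
  have hr1' : (1 : ℝ) ≤ r := by exact_mod_cast hr1
  obtain ⟨x₁, hx₁⟩ := hv (1 / 8) (by norm_num)
  obtain ⟨B, hB⟩ : ∃ B : ℕ, ∀ i < r + 1, ∀ g ∈ Finset.Icc 1 J, (|v i g|).toNat ≤ B := by
    refine ⟨∑ i ∈ Finset.range (r + 1), ∑ g ∈ Finset.Icc 1 J, (|v i g|).toNat, ?_⟩
    intro i hi g hg
    exact le_trans (Finset.single_le_sum (f := fun g => (|v i g|).toNat) (fun _ _ => Nat.zero_le _) hg)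
      (Finset.single_le_sum (f := fun i => ∑ g ∈ Finset.Icc 1 J, (|v i g|).toNat)
        (fun _ _ => Nat.zero_le _) (Finset.mem_range.2 hi))
  have key : 1 / 8 ≤ C * (((r : ℝ) + 1) ^ 2 * (((e : ℝ) + z) ^ 2 * Real.log (2 * z) / (z : ℝ) ^ 3)) := by
    obtain ⟨x, hx16, hxx₁, hxC, hxB⟩ : ∃ x : ℕ, 16 ≤ x ∧ x₁ ≤ x ∧ C * ((z : ℝ) * (e + z)) ≤ x ∧ z * B ≤ x := by
      refine ⟨max 16 (max x₁ (max ⌈C * ((z : ℝ) * (e + z))⌉₊ (z * B))), le_max_left _ _,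
        (le_max_left _ _).trans (le_max_right _ _), ?_,
        (le_max_right _ _).trans ((le_max_right _ _).trans (le_max_right _ _))⟩
      refine (Nat.le_ceil _).trans ?_
      exact_mod_cast (le_max_left _ _).trans ((le_max_right _ _).trans (le_max_right _ _))
    have hx' : (16 : ℝ) ≤ x := by exact_mod_cast hx16
    have hlx : 0 < Real.log x := Real.log_pos (by linarith)
    have hX : 0 < (x : ℝ) / Real.log x := by positivity
    have h1 := hx₁ x hxx₁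
    have h2 := hcount e z r x v hz hxC (by
      intro i hi g hg1 hg2 hg3
      have h3 := hB i (by omega) g (Finset.mem_Icc.2 ⟨hg1, by omega⟩)
      have h4 : (|v i g| : ℤ) = ((|v i g|).toNat : ℤ) := (Int.toNat_of_nonneg (abs_nonneg _)).symm
      have h5 : ((|v i g| : ℤ) : ℝ) = (((|v i g|).toNat : ℕ) : ℝ) := by
        rw [← Int.cast_natCast, ← h4]
      have h6 : (((|v i g|).toNat : ℕ) : ℝ) ≤ B := by exact_mod_cast h3
      have h7 : (B : ℝ) ≤ x / z := by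
        rw [le_div_iff₀ hz0]
        have : ((z * B : ℕ) : ℝ) ≤ x := by exact_mod_cast hxB
        push_cast at this
        linarith
      have h8 := Real.add_one_le_exp ((x : ℝ) / z)
      rw [h5]
      exact h6.trans (h7.trans (by linarith)))
    have h3 := card_primes_ge hx16
    have h4 : (((Finset.Icc 1 x).filter (fun p : ℕ => p.Prime ∧ ∃ lam : ℕ → ℤ,
        ∀ g ∈ W, (p : ℤ) ∣ (_root_.bernoulli (p - 1 - 2 * g) -
          ((LI.comb r v lam g : ℤ) : ℚ)).num)).card : ℝ) ≤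
        (((Finset.Icc 1 x).filter (fun p : ℕ => p.Prime ∧ ∃ lam : ℕ → ℤ, Bad e z r v lam p)).card : ℝ) := by
      have hsub : (Finset.Icc 1 x).filter (fun p : ℕ => p.Prime ∧ ∃ lam : ℕ → ℤ,
          ∀ g ∈ W, (p : ℤ) ∣ (_root_.bernoulli (p - 1 - 2 * g) -
            ((LI.comb r v lam g : ℤ) : ℚ)).num) ⊆
          (Finset.Icc 1 x).filter (fun p : ℕ => p.Prime ∧ ∃ lam : ℕ → ℤ, Bad e z r v lam p) := by
        intro p hp
        rw [Finset.mem_filter] at hp ⊢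
        obtain ⟨hp1, hpp, lam, hlam⟩ := hp
        exact ⟨hp1, hpp, lam, fun g hg1 hg2 hg3 => hlam g ((hWmem g).2 ⟨hg1, hg2, hg3⟩)⟩
      exact_mod_cast Finset.card_le_card hsub
    have h5 : (1 / 8) * ((x : ℝ) / Real.log x) ≤
        C * (((r : ℝ) + 1) ^ 2 * (((e : ℝ) + z) ^ 2 * Real.log (2 * z) / (z : ℝ) ^ 3)) *
          ((x : ℝ) / Real.log x) := by
      have h6 := h1.trans (h4.trans h2)
      have h7 : C * (((r : ℝ) + 1) ^ 2 * (((e : ℝ) + z) ^ 2 * Real.log (2 * z) / (z : ℝ) ^ 3) *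
          ((x : ℝ) / Real.log x)) =
          C * (((r : ℝ) + 1) ^ 2 * (((e : ℝ) + z) ^ 2 * Real.log (2 * z) / (z : ℝ) ^ 3)) *
          ((x : ℝ) / Real.log x) := by ring
      rw [h7] at h6
      linarith
    exact le_of_mul_le_mul_right h5 hX
  set Q := ((e : ℝ) + z) ^ 2 * Real.log (2 * z) with hQ
  have hQ0 : 0 < Q := by positivity
  have hz3 : 0 < (z : ℝ) ^ 3 := by positivity
  have hs2 : √(32 * C) ^ 2 = 32 * C := Real.sq_sqrt (by positivity)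
  have hq2 : √((z : ℝ) ^ 3 / Q) ^ 2 = z ^ 3 / Q := Real.sq_sqrt (by positivity)
  rw [← pow_le_pow_iff_left₀ (by positivity) (by positivity) (two_ne_zero), mul_pow, div_pow, hq2, hs2,
    one_pow]
  have h1 : ((r : ℝ) + 1) ^ 2 ≤ 4 * (r : ℝ) ^ 2 := by nlinarith
  have h2 : 1 / 8 ≤ C * (4 * (r : ℝ) ^ 2 * (Q / (z : ℝ) ^ 3)) := by
    refine key.trans ?_
    gcongr
  have h3 : C * (4 * (r : ℝ) ^ 2 * (Q / (z : ℝ) ^ 3)) = 4 * C * (r : ℝ) ^ 2 * Q / (z : ℝ) ^ 3 := by ring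
  rw [h3, le_div_iff₀ hz3] at h2
  rw [div_mul_div_comm, one_mul, div_le_iff₀ (by positivity)]
  nlinarith

end MP_a3a416_nt.LD
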