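import Pool.Agent.Lib.MP_a3a416_nt.LI.RelDefs
import Pool.Agent.Lib.MP_a3a416_nt.LD.Base

/-!
# LD-LinW
Linear algebra for a set `W` of indices.
PROOF (as `HK.exists_unit_basis` in `HK/ReadI.lean`).  `b i = (Rel J).mkQ (Pi.single i 1)`, `b 0 ≠ 0` (`LD.single_not_rel`), `S := (LinearIndepOn.singleton hb0).extend (subset)` with `{0} ⊆ A := {i | i = 0 ∨ i.val ∈ W}`;
`S ⊆ A` (`extend_subset`), `b '' A ⊆ span (b '' S)` (`LinearIndepOn.subset_span_extend` or `span_image_extend_eq_span_image`), so for `i.val ∈ W`, `b i` is a combination of the `b j`, `j ∈ S`: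
`b i = ∑_{j ∈ S} m j • b j = mkQ m` (`m` extended by zero), so `Pi.single i 1 - m ∈ Rel J`.  `T := S.toFinset`.
-/

namespace MP_a3a416_nt.LD

open Finset

private theorem mkQ_eq_sum (J : ℕ) (f : Fin (J + 1) → ℚ) :
    (LI.Rel J).mkQ f = ∑ i, f i • (LI.Rel J).mkQ (Pi.single i (1 : ℚ) : Fin (J + 1) → ℚ) := by
  have h3 : f = ∑ i, f i • (Pi.single i (1 : ℚ) : Fin (J + 1) → ℚ) := by
    ext j
    simp [Finset.sum_apply, Pi.single_apply]
  conv_lhs => rw [h3]
  rw [map_sum]
  refine Finset.sum_congr rfl fun i _ => ?_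
  rw [map_smul]

theorem exists_basis_W (J : ℕ) (W : Finset ℕ) :
    ∃ T : Finset (Fin (J + 1)), (0 : Fin (J + 1)) ∈ T ∧ (∀ i ∈ T, i = 0 ∨ i.val ∈ W) ∧
      (∀ f : Fin (J + 1) → ℚ, (∀ i, i ∉ T → f i = 0) → f ∈ LI.Rel J → ∀ i, f i = 0) ∧
      ∀ i : Fin (J + 1), i.val ∈ W → ∃ m : Fin (J + 1) → ℚ, (∀ j, j ∉ T → m j = 0) ∧
        (Pi.single i 1 - m : Fin (J + 1) → ℚ) ∈ LI.Rel J := by
  classical
  set b : Fin (J + 1) → ((Fin (J + 1) → ℚ) ⧸ LI.Rel J) :=
    fun i => (LI.Rel J).mkQ (Pi.single i 1) with hb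
  have hb0 : b 0 ≠ 0 := by
    intro h
    rw [hb] at h
    simp only [Submodule.mkQ_apply, Submodule.Quotient.mk_eq_zero] at h
    exact single_not_rel J h
  have h0 : LinearIndepOn ℚ b {0} := LinearIndepOn.singleton hb0
  set A : Set (Fin (J + 1)) := {i | i = 0 ∨ i.val ∈ W} with hA
  have h0A : ({0} : Set (Fin (J + 1))) ⊆ A := by
    intro i hi
    exact Or.inl hi
  set S : Set (Fin (J + 1)) := h0.extend h0A with hS
  have hSi : LinearIndepOn ℚ b S := h0.linearIndepOn_extend h0A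
  have hS0 : (0 : Fin (J + 1)) ∈ S := h0.subset_extend h0A (Set.mem_singleton 0)
  have hSA : S ⊆ A := h0.extend_subset h0A
  have hSs : Submodule.span ℚ (b '' S) = Submodule.span ℚ (b '' A) :=
    h0.span_image_extend_eq_span_image h0A
  refine ⟨S.toFinset, by simpa using hS0, ?_, ?_, ?_⟩
  · intro i hi
    exact hSA (by simpa using hi)
  · intro f hf hR
    have hS' : LinearIndepOn ℚ b (S.toFinset : Set (Fin (J + 1))) := by
      rw [Set.coe_toFinset]
      exact hSi
    have h1 : ∑ i ∈ S.toFinset, f i • b i = 0 := by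
      have h2 : ∑ i ∈ S.toFinset, f i • b i = ∑ i, f i • b i := by
        apply Finset.sum_subset (Finset.subset_univ _)
        intro i _ hi
        rw [hf i hi, zero_smul]
      rw [h2, hb, ← mkQ_eq_sum, Submodule.mkQ_apply, Submodule.Quotient.mk_eq_zero]
      exact hR
    have h5 := linearIndepOn_finset_iff.1 hS' f h1
    intro i
    by_cases hi : i ∈ S.toFinset
    · exact h5 i hi
    · exact hf i hi
  · intro i hi
    have h1 : b i ∈ Submodule.span ℚ (b '' S) := by
      rw [hSs]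
      exact Submodule.subset_span ⟨i, Or.inr hi, rfl⟩
    rw [Finsupp.mem_span_image_iff_linearCombination] at h1
    obtain ⟨l, hl, hlb⟩ := h1
    refine ⟨fun j => l j, ?_, ?_⟩
    · intro j hj
      by_contra hne
      apply hj
      rw [Set.mem_toFinset]
      exact hl (Finsupp.mem_support_iff.mpr hne)
    · rw [← Submodule.Quotient.mk_eq_zero, ← Submodule.mkQ_apply, map_sub, mkQ_eq_sum J (fun j => l j),
        sub_eq_zero]
      rw [Finsupp.linearCombination_apply, Finsupp.sum_fintype] at hlb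
      · exact hlb.symm
      · intro j
        exact zero_smul _ _

end MP_a3a416_nt.LD
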