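import Pool.Agent.Lib.MP_a3a416_nt.LD.DimW
import Pool.Agent.Lib.MP_a3a416_nt.LD.LinW

/-!
# LD-Indep
PROOF.  As `HK.indep_part` (`HK/ReadI.lean`) with `J = e + z`, `W` = the window, `T` of `exists_basis_W`, `G = (T.erase 0).image Fin.val`, and `dim_W`.
-/

namespace MP_a3a416_nt.LD

open Finset

open Classical in
theorem indep_W : ∃ c : ℝ, 0 < c ∧ ∀ e z : ℕ, 1 ≤ z → ∃ G : Finset ℕ,
    (∀ g ∈ G, 1 ≤ g ∧ e ≤ 2 * g ∧ 2 * g + 1 ≤ e + z) ∧
    c * √((z : ℝ) ^ 3 / (((e : ℝ) + z) ^ 2 * Real.log (2 * z))) ≤ (G.card : ℝ) + 1 ∧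
    ∀ (a₀ : ℤ) (a : ℕ → ℤ), (a₀ ≠ 0 ∨ ∃ g ∈ G, a g ≠ 0) →
      ∃ δ : ℝ, 0 < δ ∧ ∀ x₀ : ℕ, ∃ x : ℕ, x₀ ≤ x ∧
        δ * Nat.primeCounting x ≤ (((Finset.Icc 1 x).filter (fun p : ℕ => p.Prime ∧
          ¬ (p : ℤ) ∣ ((a₀ : ℚ) + ∑ g ∈ G, (a g : ℚ) * _root_.bernoulli (p - 1 - 2 * g)).num)).card : ℝ) := by
  obtain ⟨c, hc, h⟩ := dim_W
  refine ⟨c, hc, fun e z hz => ?_⟩
  set J : ℕ := e + z with hJ
  obtain ⟨T, hT0, hTW, hT, hTs⟩ := exists_basis_W J
    ((Finset.Icc 1 J).filter fun g => e ≤ 2 * g ∧ 2 * g + 1 ≤ e + z)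
  refine ⟨(T.erase 0).image Fin.val, ?_, ?_, ?_⟩
  · intro g hg
    rw [Finset.mem_image] at hg
    obtain ⟨i, hi, rfl⟩ := hg
    have h1 := Finset.ne_of_mem_erase hi
    rcases hTW i (Finset.mem_of_mem_erase hi) with h2 | h2
    · exact absurd h2 h1
    · rw [Finset.mem_filter, Finset.mem_Icc] at h2
      exact ⟨h2.1.1, h2.2.1, h2.2.2⟩
  · rw [Finset.card_image_of_injective _ Fin.val_injective]
    have h1 : ((T.erase 0).card : ℝ) + 1 = T.card := by
      exact_mod_cast Finset.card_erase_add_one hT0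
    rw [h1]
    refine h e z J T hz (by omega) hT0 fun i h2 h3 h4 => hTs i ?_
    rw [Finset.mem_filter, Finset.mem_Icc]
    exact ⟨⟨h2, by omega⟩, h3, h4⟩
  · intro a₀ a ha
    set G := (T.erase 0).image Fin.val with hG
    set f : Fin (J + 1) → ℚ := fun i => if i ∈ T then (if i = 0 then (a₀ : ℚ) else (a i.val : ℚ)) else 0 with hf
    have hfR : f ∉ LI.Rel J := by
      intro hR
      have h1 := hT f (fun i hi => by simp only [hf]; rw [if_neg hi]) hR
      rcases ha with ha | ⟨g, hg, hag⟩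
      · apply ha
        have h2 := h1 0
        simp only [hf] at h2
        rw [if_pos hT0, if_pos trivial] at h2
        exact_mod_cast h2
      · rw [hG, Finset.mem_image] at hg
        obtain ⟨i, hi, rfl⟩ := hg
        apply hag
        have h2 := h1 i
        simp only [hf] at h2
        rw [if_pos (Finset.mem_of_mem_erase hi), if_neg (Finset.ne_of_mem_erase hi)] at h2
        exact_mod_cast h2
    have hval : ∀ p : ℕ, LI.relVal J f p =
        (a₀ : ℚ) + ∑ g ∈ G, (a g : ℚ) * _root_.bernoulli (p - 1 - 2 * g) := by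
      intro p
      unfold LI.relVal
      congr 1
      · simp only [hf]
        rw [if_pos hT0, if_pos trivial]
      · rw [hG, Finset.sum_image (fun i _ j _ hij => Fin.val_injective hij)]
        have h1 : ∑ i ∈ T.erase 0, (a i.val : ℚ) * _root_.bernoulli (p - 1 - 2 * i.val) =
            ∑ i ∈ Finset.univ.erase (0 : Fin (J + 1)), f i * _root_.bernoulli (p - 1 - 2 * i.val) := by
          rw [← Finset.sum_subset (Finset.erase_subset_erase 0 (Finset.subset_univ T))]
          · refine Finset.sum_congr rfl fun i hi => ?_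
            simp only [hf]
            rw [if_pos (Finset.mem_of_mem_erase hi), if_neg (Finset.ne_of_mem_erase hi)]
          · intro i hi1 hi2
            have h3 : i ∉ T := fun h => hi2 (Finset.mem_erase.2 ⟨Finset.ne_of_mem_erase hi1, h⟩)
            simp only [hf]
            rw [if_neg h3, zero_mul]
        rw [h1]
        have h2 : ∑ i : Fin (J + 1), f i * _root_.bernoulli (p - 1 - 2 * i.val) =
            f 0 * _root_.bernoulli (p - 1 - 2 * (0 : Fin (J + 1)).val) +
            ∑ i ∈ Finset.univ.erase (0 : Fin (J + 1)), f i * _root_.bernoulli (p - 1 - 2 * i.val) :=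
          (Finset.add_sum_erase _ _ (Finset.mem_univ 0)).symm
        rw [Fin.sum_univ_succ] at h2
        have h3 := add_left_cancel h2
        rw [← h3]
        refine Finset.sum_congr rfl fun g _ => ?_
        rw [Fin.val_succ]
    have hnot : ¬ LI.IsRel J f := hfR
    unfold LI.IsRel at hnot
    push Not at hnot
    obtain ⟨ε, hε, h1⟩ := hnot
    have hev := Chebyshev.eventually_primeCounting_le (ε := 1) one_pos
    obtain ⟨X, hX⟩ := Filter.eventually_atTop.1 hev
    refine ⟨ε / (Real.log 4 + 1), by positivity, fun x₀ => ?_⟩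
    obtain ⟨x, hx, hx2⟩ := h1 (max x₀ ⌈X⌉₊)
    refine ⟨x, (le_max_left _ _).trans hx, ?_⟩
    have h3 : (X : ℝ) ≤ x := (Nat.le_ceil X).trans (by exact_mod_cast (le_max_right _ _).trans hx)
    have h4 := hX x h3
    rw [Nat.floor_natCast] at h4
    have h5 : 0 < Real.log 4 + 1 := by positivity
    simp only [hval] at hx2
    refine le_trans ?_ hx2.le
    rw [div_mul_eq_mul_div, div_le_iff₀ h5]
    calc ε * (Nat.primeCounting x : ℝ) ≤ ε * ((Real.log 4 + 1) * (x / Real.log x)) := by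
          refine mul_le_mul_of_nonneg_left ?_ hε.le
          rw [← mul_div_assoc]
          exact h4
      _ = ε * (x / Real.log x) * (Real.log 4 + 1) := by ring

end MP_a3a416_nt.LD
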