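import Mathlib

/-!
# LD-Ineq
The counting inequality of Siegel's lemma.
PROOF (compare `LJ.card_ineq` and `TW.card_ineq`).  `U := S N`, `Q := U / (2 (r+1))` (natural division), `R := (r+1)`.  `2RQ ≤ U < 2R(Q+1)`.  `8 R K N ≤ U`, `4 R x ≤ U`, so `8R (K N + x) ≤ 3 U`, and `K N + x ≤ Q`
(otherwise `Q + 1 ≤ K N + x`, `U < 2R (K N + x)`, `4 U < 3 U`).  `e + S + 1 ≤ (K - 1) S`, so `N (e+S+1) ≤ (K-1) U`, and `U ≤ 3 R Q`: `2 U < 6R Q...`: from `U ≤ 2RQ + 2R - 1` and `2RQ ≥ 2R (K N) ≥ 4R`, so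
`R Q ≥ 2 R ≥ 2R - 1`, `U ≤ 2RQ + RQ`.  So `N (e+S+1) ≤ 3 R (K-1) Q`.  `2 A H + 1 ≤ 3 A (H+1)`.
`(3A)^(N(e+S+1)) P^(KN+x) ≤ ((3A)^(3R(K-1)) P)^Q < ((H+1)^(2R))^Q ≤ (H+1)^U` (`Q ≠ 0`), and `N (e+S+1) + U ≤ S K N`.
-/

namespace MP_a3a416_nt.LD

theorem card_ineq {e S K N r x A P H : ℕ} (hS1 : 1 ≤ S) (h8 : 8 * (r + 1) * K ≤ S) (hK : 2 ≤ K)
    (hK1 : e + 2 * S + 1 ≤ K * S) (hN : 1 ≤ N) (hx : 4 * (r + 1) * x ≤ S * N) (hA : 1 ≤ A) (hP : 1 ≤ P)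
    (hH : (3 * A) ^ (3 * (r + 1) * (K - 1)) * P < (H + 1) ^ (2 * (r + 1))) :
    (2 * (A * H) + 1) ^ (N * (e + S + 1)) * P ^ (K * N + x) < (H + 1) ^ (S * K * N) := by
  have h1 : 2 * (A * H) + 1 ≤ (3 * A) * (H + 1) := by nlinarith
  obtain ⟨R, hR⟩ : ∃ R, R = r + 1 := ⟨_, rfl⟩
  rw [← hR] at h8 hx hH
  have hR1 : 1 ≤ R := by omega
  have hS1' := hS1
  obtain ⟨U, hU⟩ : ∃ U, U = S * N := ⟨_, rfl⟩
  have hKN8 : 8 * (R * (K * N)) ≤ U := by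
    rw [hU]
    calc 8 * (R * (K * N)) = 8 * R * K * N := by ring
      _ ≤ S * N := Nat.mul_le_mul_right _ h8
  have hx4 : 4 * (R * x) ≤ U := by
    rw [hU]
    calc 4 * (R * x) = 4 * R * x := by ring
      _ ≤ S * N := hx
  have hKN2 : 2 ≤ K * N := by
    calc 2 = 2 * 1 := rfl
      _ ≤ K * N := Nat.mul_le_mul hK hN
  obtain ⟨Q, hQ⟩ : ∃ Q, Q = U / (2 * R) := ⟨_, rfl⟩
  have hQ1 : 2 * R * Q ≤ U := by
    rw [hQ]
    exact Nat.mul_div_le U (2 * R)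
  have hQ2 : U < 2 * R * Q + 2 * R := by
    have h2 := Nat.lt_mul_div_succ U (show 0 < 2 * R by omega)
    rw [← hQ, Nat.mul_add, mul_one] at h2
    exact h2
  have hQb : K * N + x ≤ Q := by
    rw [hQ, Nat.le_div_iff_mul_le (by omega)]
    have e1 : (K * N + x) * (2 * R) = 2 * (R * (K * N)) + 2 * (R * x) := by ring
    rw [e1]
    omega
  have hQ3 : 2 ≤ Q := by omega
  have hQc : Q ≠ 0 := by omega
  have hq : e + S + 1 ≤ (K - 1) * S := by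
    rw [Nat.sub_mul, one_mul]
    omega
  have hQa : N * (e + S + 1) ≤ 3 * R * (K - 1) * Q := by
    have e1 : N * (e + S + 1) ≤ (K - 1) * U := by
      rw [hU]
      calc N * (e + S + 1) ≤ N * ((K - 1) * S) := Nat.mul_le_mul_left _ hq
        _ = (K - 1) * (S * N) := by ring
    have e2 : U ≤ 3 * (R * Q) := by
      have e3 : R * 2 ≤ R * Q := Nat.mul_le_mul_left _ hQ3
      have e4 : 2 * R * Q = 2 * (R * Q) := by ring
      omega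
    calc N * (e + S + 1) ≤ (K - 1) * U := e1
      _ ≤ (K - 1) * (3 * (R * Q)) := Nat.mul_le_mul_left _ e2
      _ = 3 * R * (K - 1) * Q := by ring
  have hA3 : 1 ≤ 3 * A := by omega
  have k1 : (2 * (A * H) + 1) ^ (N * (e + S + 1)) ≤
      (3 * A) ^ (N * (e + S + 1)) * (H + 1) ^ (N * (e + S + 1)) := by
    rw [← Nat.mul_pow]
    exact Nat.pow_le_pow_left h1 _
  have k2 : (3 * A) ^ (N * (e + S + 1)) * P ^ (K * N + x) < (H + 1) ^ U := by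
    calc (3 * A) ^ (N * (e + S + 1)) * P ^ (K * N + x) ≤ (3 * A) ^ (3 * R * (K - 1) * Q) * P ^ Q :=
          Nat.mul_le_mul (Nat.pow_le_pow_right hA3 hQa) (Nat.pow_le_pow_right hP hQb)
      _ = ((3 * A) ^ (3 * R * (K - 1)) * P) ^ Q := by
          rw [Nat.mul_pow ((3 * A) ^ (3 * R * (K - 1))) P Q, ← Nat.pow_mul]
      _ < ((H + 1) ^ (2 * R)) ^ Q := Nat.pow_lt_pow_left hH hQc
      _ = (H + 1) ^ (2 * R * Q) := by rw [← Nat.pow_mul]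
      _ ≤ (H + 1) ^ U := Nat.pow_le_pow_right (by omega) hQ1
  have k3 : N * (e + S + 1) + U ≤ S * K * N := by
    rw [hU]
    calc N * (e + S + 1) + S * N = N * (e + 2 * S + 1) := by ring
      _ ≤ N * (K * S) := Nat.mul_le_mul_left _ hK1
      _ = S * K * N := by ring
  refine lt_of_lt_of_le ?_ (Nat.pow_le_pow_right (by omega) k3)
  rw [Nat.pow_add (H + 1)]
  calc (2 * (A * H) + 1) ^ (N * (e + S + 1)) * P ^ (K * N + x)
      ≤ ((3 * A) ^ (N * (e + S + 1)) * (H + 1) ^ (N * (e + S + 1))) * P ^ (K * N + x) :=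
        Nat.mul_le_mul_right _ k1
    _ = (H + 1) ^ (N * (e + S + 1)) * ((3 * A) ^ (N * (e + S + 1)) * P ^ (K * N + x)) := by ring
    _ < (H + 1) ^ (N * (e + S + 1)) * (H + 1) ^ U :=
      Nat.mul_lt_mul_of_pos_left k2 (by positivity)

end MP_a3a416_nt.LD
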