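import Pool.Agent.Lib.MP_a3a416_nt.LD.Defs
import Pool.Agent.Lib.MP_a3a416_nt.TW.NotZero

/-!
# LD-NotSpan
PROOF.  Combine `LJ/NotSpan.lean` (the rational function `φ = φ_{v 0} + ∑_l μ_l φ_{v (l+1)}`, `h m n = hD (e+m) (vser 1 n - φ)`, `sT` as a series) with `TW/NotZero.lean` (the application of `TW.zeroEst` and the numerical
contradiction `numeric_nz`; copy the private lemmas of both files).
-/

namespace MP_a3a416_nt.LD

open Polynomial MP_a3a416_nt.BB MP_a3a416_nt.TW

private theorem coeff_hDls (m : ℕ) (f : PowerSeries ℚ) (k : ℕ) :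
    PowerSeries.coeff k (LJ.hD m f) = ((k + m).choose m : ℚ) * PowerSeries.coeff (k + m) f := by
  unfold LJ.hD
  rw [PowerSeries.coeff_mk]

private theorem hD_subls (m : ℕ) (f g : PowerSeries ℚ) : LJ.hD m (f - g) = LJ.hD m f - LJ.hD m g := by
  ext k
  rw [map_sub, coeff_hDls, coeff_hDls, coeff_hDls, map_sub, mul_sub]

private theorem hD_addls (m : ℕ) (f g : PowerSeries ℚ) : LJ.hD m (f + g) = LJ.hD m f + LJ.hD m g := by
  ext k
  rw [map_add, coeff_hDls, coeff_hDls, coeff_hDls, map_add, mul_add]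

private theorem hD_smulls (m : ℕ) (a : ℚ) (f : PowerSeries ℚ) :
    LJ.hD m (PowerSeries.C a * f) = PowerSeries.C a * LJ.hD m f := by
  ext k
  rw [PowerSeries.coeff_C_mul, coeff_hDls, coeff_hDls, PowerSeries.coeff_C_mul]
  ring

private theorem hD_sumls {ι : Type*} (m : ℕ) (s : Finset ι) (f : ι → PowerSeries ℚ) :
    LJ.hD m (∑ i ∈ s, f i) = ∑ i ∈ s, LJ.hD m (f i) := by
  ext k
  rw [coeff_hDls, map_sum, map_sum, Finset.mul_sum]
  exact Finset.sum_congr rfl (fun i _ => (coeff_hDls m (f i) k).symm)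

private theorem hD_polyls (m : ℕ) (f : ℤ[X]) : LJ.hD m (toPS f) = toPS (hasseDeriv m f) := by
  ext k
  rw [coeff_hDls, toPS_apply, toPS_apply, Polynomial.coeff_coe, Polynomial.coeff_coe, coeff_map,
    coeff_map, hasseDeriv_coeff]
  simp

private theorem toPS_taylorls (n : ℕ) (P : ℤ[X]) :
    ((taylor (n : ℚ) (P.map (Int.castRingHom ℚ)) : ℚ[X]) : PowerSeries ℚ) = toPS (taylor (n : ℤ) P) := by
  rw [toPS_apply, Polynomial.map_taylor]
  simp

private theorem numeric_ls {e S K N T R : ℕ} (hK : 1 ≤ K) (hK2 : K * S ≤ e + 3 * S + 1)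
    (hT : T = 3 * S + 2 * K) (hN : 2 * (T + e + S + 1) + 10 ≤ N) (hR1 : 1 ≤ R) (hRS : R ≤ S)
    (h : (N - R - 1) * (T + e + R + 1) ≤ (R + 2) * (K * N - 1)) : False := by
  obtain ⟨s, rfl⟩ : ∃ s, S = R + s := ⟨S - R, by omega⟩
  obtain ⟨M, hM⟩ : ∃ M, N = M + R + 1 := ⟨N - R - 1, by omega⟩
  have e1 : N - R - 1 = M := by omega
  rw [e1] at h
  have hsk : s ≤ K * s := Nat.le_mul_of_pos_left s hK
  have hRK : K * R + 2 * K + (R + s) ≤ T + e + R + 1 := by
    rw [mul_add] at hK2
    omega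
  set V := T + e + R + 1 with hV
  have h1 : (R + 2) * (K * N - 1) ≤ (R + 2) * (K * N) := Nat.mul_le_mul_left _ (Nat.sub_le _ _)
  have h2 : M * V ≤ (K * R + 2 * K) * N := by
    calc M * V ≤ (R + 2) * (K * N - 1) := h
      _ ≤ (R + 2) * (K * N) := h1
      _ = (K * R + 2 * K) * N := by ring
  have h3 : N * (K * R + 2 * K + (R + s)) ≤ N * V := Nat.mul_le_mul_left _ hRK
  have h4 : N * V = M * V + (R + 1) * V := by rw [hM]; ring
  have h5 : N * (R + s) ≤ (R + 1) * V := by
    have h6 : N * (K * R + 2 * K + (R + s)) = (K * R + 2 * K) * N + N * (R + s) := by ring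
    omega
  have h7 : (2 * V + 10) * (R + s) ≤ N * (R + s) := Nat.mul_le_mul_right _ (by omega)
  have h8 : (R + 1) * V ≤ 2 * V * (R + s) := by
    calc (R + 1) * V ≤ (2 * (R + s)) * V := Nat.mul_le_mul_right _ (by omega)
      _ = 2 * V * (R + s) := by ring
  have h9 : (2 * V + 10) * (R + s) = 2 * V * (R + s) + 10 * (R + s) := by ring
  omega

theorem not_in_span {e S K N T J r : ℕ} (hS : 1 ≤ S) (hK : 1 ≤ K) (hK2 : K * S ≤ e + 3 * S + 1) (hT : T = 3 * S + 2 * K)
    (hN : 2 * (T + e + S + 1) + 10 ≤ N) (c : ℕ × ℕ × ℕ → ℤ) (hc : ∃ x ∈ ix S K N, c x ≠ 0)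
    (hreg : REG e S K N c) (v : ℕ → ℕ → ℤ) (μ : ℕ → ℚ) :
    ¬ ∀ n < N, ∀ k < T,
      (((rJ e S K N c n - sT e S K N J c (v 0) n).coeff k : ℤ) : ℚ) =
        ∑ l ∈ Finset.range r, μ l * (((sT e S K N J c (v (l+1)) n).coeff k : ℤ) : ℚ) := by
  intro hcon
  have hN1 : 1 ≤ N := by omega
  have hinj : Function.Injective (Int.castRingHom ℚ) := Int.cast_injective
  set φ : PowerSeries ℚ := toPS (LJ.phiJ J (v 0)) +
    ∑ l ∈ Finset.range r, PowerSeries.C (μ l) * toPS (LJ.phiJ J (v (l + 1))) with hφ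
  have hhφ : ∀ m, LJ.hD m φ = toPS (hasseDeriv m (LJ.phiJ J (v 0))) +
      ∑ l ∈ Finset.range r, PowerSeries.C (μ l) * toPS (hasseDeriv m (LJ.phiJ J (v (l + 1)))) := by
    intro m
    have h0 : LJ.hD m φ = LJ.hD m (toPS (LJ.phiJ J (v 0))) + LJ.hD m (∑ l ∈ Finset.range r,
        PowerSeries.C (μ l) * toPS (LJ.phiJ J (v (l + 1)))) := by rw [hφ, hD_addls]
    rw [h0, hD_sumls, hD_polyls]
    congr 1
    exact Finset.sum_congr rfl (fun l _ => by rw [hD_smulls, hD_polyls])
  have hsJ : ∀ (w : ℕ → ℤ) (n : ℕ), toPS (sT e S K N J c w n) =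
      ∑ m ∈ Finset.range S, toPS (taylor (n : ℤ) (PJ K N c m)) *
        toPS (hasseDeriv (e + m) (LJ.phiJ J w)) := by
    intro w n
    unfold sT
    rw [map_sum]
    exact Finset.sum_congr rfl (fun m _ => map_mul _ _ _)
  obtain ⟨R, hR1, hRS, hR⟩ := zeroEst e S N T (K * N) (fun m n => LJ.hD (e + m) (vser 1 n - φ))
    (by
      intro m _ n
      have e1 : LJ.hD (e + m) (vser 1 (n + 1) - φ) - LJ.hD (e + m) (vser 1 n - φ) =
          LJ.hD (e + m) (jet 1 (n + 1)) := by
        have h1 := vser_succ_sub 1 n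
        rw [Finset.Icc_self, Finset.sum_singleton, one_mul] at h1
        rw [← h1, ← hD_subls]
        congr 1
        ring
      show (PowerSeries.X + PowerSeries.C ((n : ℚ) + 1)) ^ (e + m + 2) *
        (LJ.hD (e + m) (vser 1 (n + 1) - φ) - LJ.hD (e + m) (vser 1 n - φ)) = _
      rw [e1]
      have h2 := LJ.hD_jet (e + m) (b := n + 1) (by omega)
      unfold cc
      push_cast at h2 ⊢
      exact h2)
    (fun m => (PJ K N c m).map (Int.castRingHom ℚ))
    (fun m _ => lt_of_le_of_lt natDegree_map_le (natDegree_PJ_lt hK hN1 c m))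
    (by
      obtain ⟨m, hm, hne⟩ := exists_PJ_ne_zero c hc
      exact ⟨m, hm, (Polynomial.map_ne_zero_iff hinj).2 hne⟩)
    (fun b => (QJ e S K N c (b : ℤ)).map (Int.castRingHom ℚ))
    (by
      intro b hb
      have h1 := congrArg (Polynomial.map (Int.castRingHom ℚ)) (QJ_mul c hreg hb)
      rw [Polynomial.map_mul, Polynomial.map_pow, Polynomial.map_sub, Polynomial.map_X,
        Polynomial.map_C, Polynomial.map_sum] at h1
      have e1 : (Int.castRingHom ℚ) ((b : ℕ) : ℤ) = (b : ℚ) := by simp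
      rw [e1] at h1
      rw [h1]
      refine Finset.sum_congr rfl fun m _ => ?_
      rw [Polynomial.map_mul, Polynomial.map_mul, Polynomial.map_pow, Polynomial.map_sub,
        Polynomial.map_X, Polynomial.map_C, Polynomial.map_C, e1]
      rfl)
    (by
      intro n hn
      have e2 : ∑ m ∈ Finset.range S,
          ((taylor (n : ℚ) ((PJ K N c m).map (Int.castRingHom ℚ)) : ℚ[X]) : PowerSeries ℚ) *
            LJ.hD (e + m) (vser 1 n - φ) =
          toPS (rJ e S K N c n) - (toPS (sT e S K N J c (v 0) n) +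
            ∑ l ∈ Finset.range r, PowerSeries.C (μ l) * toPS (sT e S K N J c (v (l + 1)) n)) := by
        have h1 := rJ_series c hreg hn.le
        rw [← toPS_apply] at h1
        rw [h1, hsJ]
        simp only [hsJ]
        simp only [Finset.mul_sum]
        rw [Finset.sum_comm (s := Finset.range r), ← Finset.sum_add_distrib, ← Finset.sum_sub_distrib]
        refine Finset.sum_congr rfl (fun m _ => ?_)
        rw [hD_subls, hhφ, toPS_taylorls, mul_sub, mul_add, Finset.mul_sum]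
        congr 2
        exact Finset.sum_congr rfl (fun l _ => by ring)
      show (PowerSeries.X : PowerSeries ℚ) ^ T ∣ ∑ m ∈ Finset.range S,
          ((taylor (n : ℚ) ((PJ K N c m).map (Int.castRingHom ℚ)) : ℚ[X]) : PowerSeries ℚ) *
            LJ.hD (e + m) (vser 1 n - φ)
      rw [e2, PowerSeries.X_pow_dvd_iff]
      intro k hk
      have h3 := hcon n hn k hk
      have hcf : ∀ P : ℤ[X], PowerSeries.coeff k (toPS P) = ((P.coeff k : ℤ) : ℚ) := by
        intro P
        rw [toPS_apply, Polynomial.coeff_coe, coeff_map]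
        rfl
      rw [map_sub, map_add, map_sum, hcf, hcf]
      have h4 : ∀ l ∈ Finset.range r, PowerSeries.coeff k (PowerSeries.C (μ l) *
          toPS (sT e S K N J c (v (l + 1)) n)) =
            μ l * (((sT e S K N J c (v (l+1)) n).coeff k : ℤ) : ℚ) := by
        intro l _
        rw [PowerSeries.coeff_C_mul, hcf]
      rw [Finset.sum_congr rfl h4, ← h3, coeff_sub]
      push_cast
      ring)
  exact numeric_ls hK hK2 hT hN hR1 hRS hR

end MP_a3a416_nt.LD
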