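import Pool.Agent.Lib.MP_a3a416_nt.LD.Defs
import Pool.Agent.Lib.MP_a3a416_nt.TW.Den

/-!
# LD-SBound
The integers for `sT`.
PROOF.  As `LJ/SjBound.lean` (`sJ_bound`), with `TW.FN_dvd_PJ`, `TW.PJ_size` (copy the private lemma `sjb_int` of `TW/Den.lean`, `sjb_phi` and `sjb_arith` of `LJ/SjBound.lean`), `L = T + e + S`.
`(sT ..).coeff k = ∑_m ∑_{i+j=k} (taylor n P_m)_i * C(j+e+m, e+m) * φ_{j+e+m}`, `|φ_l| ≤ A`, `C(j+e+m, e+m) ≤ 2^(j+e+m) ≤ 4^(T+e+S)`; `i ≤ k < T`; at most `S (k+1) ≤ S T` terms, each `≤ DJ K N H 2^N 4^(T+e+S) A`.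
-/

namespace MP_a3a416_nt.LD

open Polynomial MP_a3a416_nt.BB MP_a3a416_nt.TW

private theorem sjb_int {S K N H L : ℕ} (hK : 1 ≤ K) (c : ℕ × ℕ × ℕ → ℤ) (hc : ∀ x ∈ ix S K N, |c x| ≤ (H : ℤ))
    {m n k : ℕ} (hm : m < S) (hn : n < N) (hk : k ≤ L) :
    ∃ z : ℤ, (DJ K N L : ℤ) * (taylor (n : ℤ) (PJ K N c m)).coeff k = (FN K N : ℤ) * z ∧
      |z| ≤ (DJ K N L : ℤ) * (K * N * H * 2 ^ N) := by
  obtain ⟨z, hz⟩ := FN_dvd_PJ (N := N) (L := L) (n := n) (k := k) (m := m) hK c hk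
  refine ⟨z, hz, ?_⟩
  have h1 := PJ_size c hc hm hn k
  have hF : (0 : ℤ) < (FN K N : ℤ) := by exact_mod_cast FN_pos K N
  have hD : (0 : ℤ) ≤ (DJ K N L : ℤ) := by positivity
  have h2 : (FN K N : ℤ) * |z| = (DJ K N L : ℤ) * |(taylor (n : ℤ) (PJ K N c m)).coeff k| := by
    rw [← abs_of_pos hF, ← abs_mul, ← hz, abs_mul, abs_of_nonneg hD]
  have h3 : (FN K N : ℤ) * |z| ≤ (FN K N : ℤ) * ((DJ K N L : ℤ) * (K * N * H * 2 ^ N)) := by
    rw [h2]
    calc (DJ K N L : ℤ) * |(taylor (n : ℤ) (PJ K N c m)).coeff k|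
        ≤ (DJ K N L : ℤ) * ((FN K N * (K * N * H * 2 ^ N) : ℕ) : ℤ) :=
          mul_le_mul_of_nonneg_left h1 hD
      _ = _ := by push_cast; ring
  exact le_of_mul_le_mul_left h3 hF

private theorem sjb_phi {J A : ℕ} (w : ℕ → ℤ) (hw : ∀ g ∈ Finset.Icc 1 J, |w g| ≤ (A : ℤ)) (l : ℕ) :
    |(LJ.phiJ J w).coeff l| ≤ (A : ℤ) := by
  rw [coeff_phiJ]
  split_ifs with h
  · exact hw _ (Finset.mem_Icc.2 h.2)
  · rw [abs_zero]
    exact Int.natCast_nonneg _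

private theorem sjb_arith {S K N H T : ℕ} {k D B : ℤ} (hk : k ≤ T) (hN : 1 ≤ N) (hD : 0 ≤ D)
    (hB : 0 ≤ B) : (S : ℤ) * k * (D * (K * N * H * 2 ^ N) * B) ≤
      (S : ℤ) * T * (D * ((K * (N : ℤ) ^ 2) * H * 2 ^ N) * B) := by
  have h6 : (N : ℤ) ≤ (N : ℤ) ^ 2 := by
    have : (1 : ℤ) ≤ N := by exact_mod_cast hN
    nlinarith
  have h9 : (K * N * H * 2 ^ N : ℤ) ≤ (K * (N : ℤ) ^ 2) * H * 2 ^ N := by
    have h10 : (0 : ℤ) ≤ (K : ℤ) * (H : ℤ) * 2 ^ N := by positivity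
    nlinarith [mul_le_mul_of_nonneg_right h6 h10]
  have h11 : (0 : ℤ) ≤ K * N * H * 2 ^ N := by positivity
  have h12 : (0 : ℤ) ≤ (S : ℤ) * T := by positivity
  exact mul_le_mul (mul_le_mul_of_nonneg_left hk (Int.natCast_nonneg _))
    (mul_le_mul_of_nonneg_right (mul_le_mul_of_nonneg_left h9 hD) hB)
    (mul_nonneg (mul_nonneg hD h11) hB) h12

theorem sT_bound {e S K N T J H A : ℕ} (hK : 1 ≤ K) (c : ℕ × ℕ × ℕ → ℤ) (hc : ∀ x ∈ ix S K N, |c x| ≤ (H : ℤ))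
    (w : ℕ → ℤ) (hw : ∀ g ∈ Finset.Icc 1 J, |w g| ≤ (A : ℤ)) {n k : ℕ} (hn : n < N) (hk : k < T) :
    ∃ z : ℤ, (DJ K N (T + e + S) : ℤ) * (sT e S K N J c w n).coeff k = (FN K N : ℤ) * z ∧
      |z| ≤ ((A * EJ e S K N T * H : ℕ) : ℤ) := by
  set L := T + e + S with hL
  have hex : ∀ m i : ℕ, ∃ z : ℤ, m < S → i ≤ k →
      (DJ K N L : ℤ) * (taylor (n : ℤ) (PJ K N c m)).coeff i = (FN K N : ℤ) * z ∧
      |z| ≤ (DJ K N L : ℤ) * (K * N * H * 2 ^ N) := by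
    intro m i
    by_cases h : m < S ∧ i ≤ k
    · obtain ⟨z, hz⟩ := sjb_int (L := L) hK c hc h.1 hn (show i ≤ L by omega)
      exact ⟨z, fun _ _ => hz⟩
    · exact ⟨0, fun h1 h2 => absurd ⟨h1, h2⟩ h⟩
  choose z hz using hex
  refine ⟨∑ m ∈ Finset.range S, ∑ x ∈ Finset.HasAntidiagonal.antidiagonal k,
    z m x.1 * (hasseDeriv (e + m) (LJ.phiJ J w)).coeff x.2, ?_, ?_⟩
  · unfold sT
    rw [finsetSum_coeff, Finset.mul_sum, Finset.mul_sum]
    refine Finset.sum_congr rfl fun m hm => ?_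
    rw [coeff_mul, Finset.mul_sum, Finset.mul_sum]
    refine Finset.sum_congr rfl fun x hx => ?_
    have hx1 : x.1 ≤ k := by
      have := Finset.HasAntidiagonal.mem_antidiagonal.1 hx
      omega
    have := (hz m x.1 (Finset.mem_range.1 hm) hx1).1
    rw [← mul_assoc, this, mul_assoc]
  · obtain ⟨B, hB⟩ : ∃ B : ℤ, B = 4 ^ (T + e + S) := ⟨_, rfl⟩
    have hB0 : 0 ≤ B := by rw [hB]; positivity
    obtain ⟨M, hM⟩ : ∃ M : ℤ, M = (DJ K N L : ℤ) * (K * N * H * 2 ^ N) := ⟨_, rfl⟩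
    have hM0 : 0 ≤ M := by
      rw [hM]
      refine mul_nonneg (Int.natCast_nonneg _) ?_
      positivity
    have hterm : ∀ m ∈ Finset.range S, ∀ x ∈ Finset.HasAntidiagonal.antidiagonal k,
        |z m x.1 * (hasseDeriv (e + m) (LJ.phiJ J w)).coeff x.2| ≤ M * (B * A) := by
      intro m hm x hx
      rw [Finset.mem_range] at hm
      have hx0 := Finset.HasAntidiagonal.mem_antidiagonal.1 hx
      have hx1 : x.1 ≤ k := by omega
      have hx2 : x.2 ≤ k := by omega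
      have h1 : |z m x.1| ≤ M := by
        rw [hM]
        exact (hz m x.1 hm hx1).2
      have h2 : |(hasseDeriv (e + m) (LJ.phiJ J w)).coeff x.2| ≤ B * (A : ℤ) := by
        rw [hasseDeriv_coeff, abs_mul]
        have h3 : |(((x.2 + (e + m)).choose (e + m) : ℕ) : ℤ)| ≤ B := by
          rw [Nat.abs_cast, hB]
          have h4 : (x.2 + (e + m)).choose (e + m) ≤ 4 ^ (T + e + S) := by
            calc (x.2 + (e + m)).choose (e + m) ≤ 2 ^ (x.2 + (e + m)) := Nat.choose_le_two_pow _ _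
              _ ≤ 2 ^ (T + e + S) := Nat.pow_le_pow_right (by norm_num) (by omega)
              _ ≤ 4 ^ (T + e + S) := Nat.pow_le_pow_left (by norm_num) _
          exact_mod_cast h4
        exact mul_le_mul h3 (sjb_phi w hw _) (abs_nonneg _) hB0
      rw [abs_mul]
      exact mul_le_mul h1 h2 (abs_nonneg _) hM0
    have hN1 : 1 ≤ N := by omega
    calc |∑ m ∈ Finset.range S, ∑ x ∈ Finset.HasAntidiagonal.antidiagonal k,
        z m x.1 * (hasseDeriv (e + m) (LJ.phiJ J w)).coeff x.2|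
        ≤ ∑ m ∈ Finset.range S, ∑ x ∈ Finset.HasAntidiagonal.antidiagonal k,
        |z m x.1 * (hasseDeriv (e + m) (LJ.phiJ J w)).coeff x.2| := by
          refine (Finset.abs_sum_le_sum_abs _ _).trans (Finset.sum_le_sum fun m _ => ?_)
          exact Finset.abs_sum_le_sum_abs _ _
      _ ≤ ∑ _m ∈ Finset.range S, ∑ _x ∈ Finset.HasAntidiagonal.antidiagonal k,
          M * (B * A) :=
          Finset.sum_le_sum fun m hm => Finset.sum_le_sum fun x hx => hterm m hm x hx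
      _ = (S : ℤ) * ((k + 1 : ℕ) : ℤ) * (M * (B * A)) := by
          rw [Finset.sum_const, Finset.sum_const, Finset.card_range,
            Finset.Nat.card_antidiagonal, nsmul_eq_mul, nsmul_eq_mul, mul_assoc]
      _ ≤ (S : ℤ) * T * (((DJ K N L : ℤ) * ((K * (N : ℤ) ^ 2) * H * 2 ^ N)) *
          (B * A)) := by
          rw [hM]
          exact sjb_arith (by exact_mod_cast hk) hN1 (Int.natCast_nonneg _) (mul_nonneg hB0 (Int.natCast_nonneg _))
      _ = ((A * EJ e S K N T * H : ℕ) : ℤ) := by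
          unfold EJ
          rw [hB, ← hL]
          push_cast
          ring

end MP_a3a416_nt.LD
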