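import Pool.Agent.Lib.MP_a3a416_nt.LD.Auxi
import Pool.Agent.Lib.MP_a3a416_nt.LD.SBound
import Pool.Agent.Lib.MP_a3a416_nt.LD.NotSpan
import Pool.Agent.Lib.MP_a3a416_nt.TW.RrBound
import Pool.Agent.Lib.MP_a3a416_nt.LI.Minor

/-!
# LD-ProdBad
PROOF.  Copy `LJ/ProdBad.lean` with `TW.rJ_bound`, `LD.sT_bound`, `LD.not_in_span`, `LD.exists_aux` (`DJ_mono`, `three_AJ_le` as in `TW/ProdBad.lean`).  `P = ∏ p`; `H` = the largest integer with `H^(2(r+1)) ≤ (3AJ)^(3(r+1)(K-1)) P`.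
`B = (1+A) EJ H`; the minor lemma gives `P ≤ (r+1)! B^(r+1)`; squaring: `P * P ≤ ((r+1)!)^2 ((1+A)EJ)^(2(r+1)) H^(2(r+1)) ≤ ((r+1)!)^2 ((1+A)EJ)^(2(r+1)) (3AJ)^(3(r+1)(K-1)) P`; divide by `P`, `3 AJ ≤ EJ`,
`2(r+1) + 3(r+1)(K-1) ≤ 3(r+1)K`.  `K ≥ 2` because `e + 2S + 1 ≤ K S`.
-/

namespace MP_a3a416_nt.LD

open Polynomial MP_a3a416_nt.BB MP_a3a416_nt.TW

private theorem sT_comb (e S K N J : ℕ) (c : ℕ × ℕ × ℕ → ℤ) (r : ℕ) (v : ℕ → ℕ → ℤ) (lam : ℕ → ℤ)
    (n k : ℕ) :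
    (sT e S K N J c (LI.comb r v lam) n).coeff k = (sT e S K N J c (v 0) n).coeff k +
      ∑ l ∈ Finset.range r, lam l * (sT e S K N J c (v (l+1)) n).coeff k := by
  have hphi : LJ.phiJ J (LI.comb r v lam) = LJ.phiJ J (v 0) +
      ∑ l ∈ Finset.range r, C (lam l) * LJ.phiJ J (v (l+1)) := by
    unfold LJ.phiJ LI.comb
    simp only [Finset.mul_sum]
    rw [Finset.sum_comm, ← Finset.sum_add_distrib]
    refine Finset.sum_congr rfl fun g _ => ?_
    rw [map_add, map_sum, add_mul, Finset.sum_mul]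
    congr 1
    refine Finset.sum_congr rfl fun l _ => ?_
    rw [map_mul]
    ring
  have h : sT e S K N J c (LI.comb r v lam) n = sT e S K N J c (v 0) n +
      ∑ l ∈ Finset.range r, C (lam l) * sT e S K N J c (v (l+1)) n := by
    unfold sT
    rw [hphi]
    simp only [Finset.mul_sum]
    rw [Finset.sum_comm, ← Finset.sum_add_distrib]
    refine Finset.sum_congr rfl fun m _ => ?_
    rw [map_add, map_sum, mul_add, Finset.mul_sum]
    congr 1
    refine Finset.sum_congr rfl fun l _ => ?_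
    rw [C_mul', C_mul', map_smul, mul_smul_comm]
  rw [h, coeff_add, finsetSum_coeff]
  simp only [coeff_C_mul]

private theorem DJ_mono (K N : ℕ) {L L' : ℕ} (h : L ≤ L') : DJ K N L ≤ DJ K N L' := by
  unfold DJ
  refine Finset.prod_le_prod_of_subset_of_one_le' ?_ fun _ _ _ => Nat.lcmUpto_pos _
  exact Finset.Icc_subset_Icc_right h

private theorem three_AJ_le {e S K N T : ℕ} (hT : 1 ≤ T) : 3 * AJ e S K N ≤ EJ e S K N T := by
  unfold AJ EJ
  have h1 : DJ K N (e + S + 1) ≤ DJ K N (T + e + S) := DJ_mono K N (by omega)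
  have h2 : N ≤ N ^ 2 := Nat.le_self_pow (by norm_num) N
  have h3 : 3 * (e + S) ≤ 4 ^ (T + e + S) := by
    have h4 : e + S < 4 ^ (e + S) := Nat.lt_pow_self (by norm_num)
    have h5 : 4 ^ (1 + (e + S)) ≤ 4 ^ (T + e + S) := Nat.pow_le_pow_right (by norm_num) (by omega)
    have h6 : 4 ^ (1 + (e + S)) = 4 * 4 ^ (e + S) := by rw [pow_add, pow_one]
    omega
  calc 3 * (DJ K N (e + S + 1) * (S * (e + S) * (K * N) * 2 ^ N))
      = DJ K N (e + S + 1) * (S * 1 * (K * N) * 2 ^ N * (3 * (e + S))) := by ring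
    _ ≤ DJ K N (T + e + S) * (S * T * (K * N ^ 2) * 2 ^ N * 4 ^ (T + e + S)) := by
        gcongr

theorem prod_bad {e z S K N T J r A x : ℕ} (hS : 1 ≤ S) (h8 : 8 * (r + 1) * K ≤ S) (hK1 : e + 2 * S + 1 ≤ K * S)
    (hK2 : K * S ≤ e + 3 * S + 1) (hT : T = 3 * S + 2 * K) (hz : S + T ≤ z + 1) (hJ : e + z ≤ 2 * J + 1)
    (hx : 4 * (r + 1) * x ≤ S * N) (hN : 2 * (T + e + S + 1) + 10 ≤ N) (v : ℕ → ℕ → ℤ)
    (hv : ∀ l ≤ r, ∀ g ∈ Finset.Icc 1 J, |v l g| ≤ (A : ℤ)) (Ps : Finset ℕ) (lam : ℕ → ℕ → ℤ)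
    (hP : ∀ p ∈ Ps, p.Prime ∧ N < p ∧ p ≤ x ∧ Bad e z r v (lam p) p) :
    ∏ p ∈ Ps, p ≤ ((r + 1).factorial) ^ 2 * ((1 + A) * EJ e S K N T) ^ (3 * (r + 1) * K) := by
  classical
  have hK2' : 2 ≤ K := by
    by_contra hcon
    have : K * S ≤ 1 * S := Nat.mul_le_mul_right S (by omega)
    omega
  set P := ∏ p ∈ Ps, p with hPdef
  have hPpos : 0 < P := by
    rw [hPdef]
    exact Finset.prod_pos fun p hp => (hP p hp).1.pos
  have hm : 2 * (r + 1) ≠ 0 := by omega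
  have hN0 : 0 < N := by omega
  have hT0 : 0 < T := by omega
  have hAJ : 0 < AJ e S K N := by
    unfold AJ
    have := DJ_pos K N (e + S + 1)
    positivity
  have hEJ : 0 < EJ e S K N T := by
    unfold EJ
    have := DJ_pos K N (T + e + S)
    positivity
  set P' := (3 * AJ e S K N) ^ (3 * (r + 1) * (K - 1)) * P with hP'def
  have hP'pos : 0 < P' := by positivity
  -- the integer `H`
  obtain ⟨H, hH1, hHP, hPH⟩ : ∃ H : ℕ, 1 ≤ H ∧ H ^ (2 * (r + 1)) ≤ P' ∧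
      P' < (H + 1) ^ (2 * (r + 1)) := by
    refine ⟨Nat.findGreatest (fun h => h ^ (2 * (r + 1)) ≤ P') P', ?_, ?_, ?_⟩
    · exact Nat.le_findGreatest (by omega) (by rw [one_pow]; exact hP'pos)
    · have := @Nat.findGreatest_spec 1 (fun h => h ^ (2 * (r + 1)) ≤ P') _ P' (by omega)
        (by rw [one_pow]; exact hP'pos)
      exact this
    · by_contra hcon
      rw [not_lt] at hcon
      set h0 := Nat.findGreatest (fun h => h ^ (2 * (r + 1)) ≤ P') P' with hh0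
      have hle : h0 + 1 ≤ P' := (Nat.le_self_pow hm _).trans hcon
      have := Nat.findGreatest_is_greatest (P := fun h => h ^ (2 * (r + 1)) ≤ P') (n := P')
        (k := h0 + 1) (by rw [← hh0]; omega) hle
      exact this hcon
  obtain ⟨c, hc0, hcb, hreg, hcd⟩ := LD.exists_aux (T := T) v hS h8 hK2' hK1 hz hJ hx (by omega)
    Ps lam hP H hH1 hPH
  have hDJ : 0 < DJ K N (T + e + S) := DJ_pos _ _ _
  have hFN : 0 < FN K N := FN_pos K N
  have hzr : ∀ i : Fin N × Fin T, ∃ z : ℤ,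
      (DJ K N (T + e + S) : ℤ) * (rJ e S K N c i.1).coeff i.2 = (FN K N : ℤ) * z ∧
      |z| ≤ ((EJ e S K N T * H : ℕ) : ℤ) := fun i =>
    TW.rJ_bound (T := T) (by omega) c hcb hreg i.1.2 i.2.2
  have hzs : ∀ l, ∀ i : Fin N × Fin T, ∃ z : ℤ, l ≤ r →
      (DJ K N (T + e + S) : ℤ) * (sT e S K N J c (v l) i.1).coeff i.2 = (FN K N : ℤ) * z ∧
      |z| ≤ ((A * EJ e S K N T * H : ℕ) : ℤ) := by
    intro l i
    by_cases hl : l ≤ r
    · obtain ⟨z, hz, hzb⟩ := sT_bound (T := T) (e := e) (by omega) c hcb (v l) (hv l hl) i.1.2 i.2.2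
      exact ⟨z, fun _ => ⟨hz, hzb⟩⟩
    · exact ⟨0, fun h => absurd h hl⟩
  choose zr hzr1 hzr2 using hzr
  choose zs hzs' using hzs
  have hzs1 : ∀ l ≤ r, ∀ i, (DJ K N (T + e + S) : ℤ) *
      (sT e S K N J c (v l) i.1).coeff i.2 = (FN K N : ℤ) * zs l i := fun l hl i =>
    (hzs' l i hl).1
  have hzs2 : ∀ l ≤ r, ∀ i, |zs l i| ≤ ((A * EJ e S K N T * H : ℕ) : ℤ) := fun l hl i =>
    (hzs' l i hl).2
  set B : ℕ := (1 + A) * EJ e S K N T * H with hB
  have hB1 : 1 ≤ B := by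
    rw [hB]
    have : 0 < (1 + A) * EJ e S K N T * H := by positivity
    exact this
  obtain ⟨M, hM⟩ : ∃ M : Fin N × Fin T → Fin (r + 1) → ℤ, M = fun i j =>
      Fin.cases (zr i - zs 0 i) (fun l : Fin r => zs ((l : ℕ) + 1) i) j := ⟨_, rfl⟩
  have hM0 : ∀ i, M i 0 = zr i - zs 0 i := fun i => by rw [hM]; rfl
  have hMs : ∀ i (l : Fin r), M i l.succ = zs ((l : ℕ) + 1) i := fun i l => by rw [hM]; rfl
  have hMB : ∀ i j, |M i j| ≤ (B : ℤ) := by
    intro i j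
    refine Fin.cases ?_ (fun l => ?_) j
    · rw [hM0]
      have h1 := hzr2 i
      have h2 := hzs2 0 (Nat.zero_le _) i
      calc |zr i - zs 0 i| ≤ |zr i| + |zs 0 i| := abs_sub _ _
        _ ≤ ((EJ e S K N T * H : ℕ) : ℤ) + ((A * EJ e S K N T * H : ℕ) : ℤ) := add_le_add h1 h2
        _ = (B : ℤ) := by rw [hB]; push_cast; ring
    · rw [hMs]
      have h2 := hzs2 (l + 1) (by have := l.2; omega) i
      refine h2.trans ?_
      have : A * EJ e S K N T * H ≤ B := by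
        rw [hB]
        gcongr
        omega
      exact_mod_cast this
  have hMBR : ∀ i j, |((M i j : ℤ) : ℝ)| ≤ (B : ℝ) := by
    intro i j
    have := hMB i j
    have h2 : (((|M i j| : ℤ)) : ℝ) ≤ (((B : ℤ)) : ℝ) := by exact_mod_cast this
    rw [Int.cast_abs] at h2
    simpa using h2
  have hmod : ∀ p ∈ Ps, ∃ la : Fin r → ZMod p, ∀ i,
      (M i 0 : ZMod p) + ∑ l, la l * (M i l.succ : ZMod p) = 0 := by
    intro p hp
    refine ⟨fun l => - (lam p l : ZMod p), fun i => ?_⟩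
    have hpp : Prime (p : ℤ) := Nat.prime_iff_prime_int.1 (hP p hp).1
    have hnd : ¬ (p : ℤ) ∣ (FN K N : ℤ) := by
      intro h
      have h' : p ∣ FN K N := by exact_mod_cast h
      unfold FN at h'
      have h2 := (hP p hp).1.dvd_of_dvd_pow h'
      have h3 := ((hP p hp).1.dvd_factorial).1 h2
      have h4 := (hP p hp).2.1
      omega
    have h1 := hcd p hp i.1 i.1.2 i.2 i.2.2
    have h2 : (FN K N : ℤ) * (M i 0 - ∑ l : Fin r, lam p l * M i l.succ) =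
        (DJ K N (T + e + S) : ℤ) *
          (rJ e S K N c i.1 - sT e S K N J c (LI.comb r v (lam p)) i.1).coeff i.2 := by
      rw [coeff_sub, sT_comb, mul_sub (DJ K N (T + e + S) : ℤ), mul_add, hzr1,
        hzs1 0 (Nat.zero_le _), mul_sub (FN K N : ℤ), hM0,
        mul_sub (FN K N : ℤ), Finset.mul_sum, Finset.mul_sum, Finset.sum_range, sub_sub]
      congr 2
      refine Finset.sum_congr rfl fun l _ => ?_
      rw [mul_left_comm (DJ K N (T + e + S) : ℤ), hzs1 (l + 1) (by have := l.2; omega), hMs]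
      ring
    have h3 : (p : ℤ) ∣ M i 0 - ∑ l : Fin r, lam p l * M i l.succ := by
      rcases hpp.dvd_or_dvd (h2 ▸ Dvd.dvd.mul_left h1 _) with h3 | h3
      · exact absurd h3 hnd
      · exact h3
    have h4 := (ZMod.intCast_zmod_eq_zero_iff_dvd _ _).2 h3
    push_cast at h4
    rw [sub_eq_add_neg, ← Finset.sum_neg_distrib] at h4
    rw [← h4]
    congr 1
    refine Finset.sum_congr rfl fun l _ => ?_
    ring
  have hPle : P ≤ (r+1).factorial * B ^ (r+1) := by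
    rcases _root_.LI.minor_lemma r M (B : ℝ) (by exact_mod_cast hB1) hMBR Ps
      (fun p hp => (hP p hp).1) hmod with ⟨μ, hμ⟩ | h
    · exfalso
      refine not_in_span (J := J) (r := r) (T := T) hS (by omega) hK2 hT hN c hc0 hreg v
        (fun l => if h : l < r then μ ⟨l, h⟩ else 0) ?_
      intro n hn k hk
      have hi := hμ (⟨n, hn⟩, ⟨k, hk⟩)
      have e1 := hzr1 (⟨n, hn⟩, ⟨k, hk⟩)
      have e2 := hzs1 0 (Nat.zero_le _) (⟨n, hn⟩, ⟨k, hk⟩)
      have hDJq : (DJ K N (T + e + S) : ℚ) ≠ 0 := by exact_mod_cast hDJ.ne'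
      apply mul_left_cancel₀ hDJq
      rw [Finset.sum_range]
      have e1q : (DJ K N (T + e + S) : ℚ) * ((rJ e S K N c n).coeff k : ℤ) =
          (FN K N : ℚ) * (zr (⟨n, hn⟩, ⟨k, hk⟩) : ℤ) := by exact_mod_cast e1
      have e2q : (DJ K N (T + e + S) : ℚ) * ((sT e S K N J c (v 0) n).coeff k : ℤ) =
          (FN K N : ℚ) * (zs 0 (⟨n, hn⟩, ⟨k, hk⟩) : ℤ) := by exact_mod_cast e2
      rw [coeff_sub, Int.cast_sub, mul_sub, e1q, e2q, ← mul_sub, ← Int.cast_sub, ← hM0, hi,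
        Finset.mul_sum, Finset.mul_sum]
      refine Finset.sum_congr rfl fun l _ => ?_
      have e3 := hzs1 (l + 1) (by have := l.2; omega) (⟨n, hn⟩, ⟨k, hk⟩)
      have e3q : (DJ K N (T + e + S) : ℚ) *
          ((sT e S K N J c (v ((l : ℕ) + 1)) n).coeff k : ℤ) =
          (FN K N : ℚ) * (zs (l + 1) (⟨n, hn⟩, ⟨k, hk⟩) : ℤ) := by exact_mod_cast e3
      rw [dif_pos l.2, mul_left_comm (DJ K N (T + e + S) : ℚ) _ _, e3q, hMs]
      simp only [Fin.eta]
      ring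
    · have h' : (P : ℝ) ≤ (((r + 1).factorial * B ^ (r + 1) : ℕ) : ℝ) := by
        rw [hPdef]
        push_cast
        exact h
      exact_mod_cast h'
  have hA1 : 1 ≤ (1 + A) * EJ e S K N T := Nat.mul_pos (by omega) hEJ
  have h3AJ : 3 * AJ e S K N ≤ (1 + A) * EJ e S K N T :=
    (three_AJ_le hT0).trans (Nat.le_mul_of_pos_left _ (by omega))
  have hexp : 2 * (r + 1) + 3 * (r + 1) * (K - 1) ≤ 3 * (r + 1) * K := by
    obtain ⟨k, rfl⟩ : ∃ k, K = k + 1 := ⟨K - 1, by omega⟩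
    have hk : 3 * (r + 1) * (k + 1) = 3 * (r + 1) * k + 3 * (r + 1) := by ring
    rw [Nat.add_sub_cancel, hk]
    omega
  have hfin : P * P ≤ ((r+1).factorial) ^ 2 * ((1 + A) * EJ e S K N T) ^ (3 * (r + 1) * K) * P := by
    calc P * P = P ^ 2 := by ring
      _ ≤ ((r+1).factorial * B ^ (r+1)) ^ 2 := Nat.pow_le_pow_left hPle 2
      _ = ((r+1).factorial) ^ 2 * (((1 + A) * EJ e S K N T) ^ (2 * (r + 1)) * H ^ (2 * (r + 1))) := by
        rw [hB, mul_pow, ← pow_mul, mul_comm (r + 1) 2, mul_pow]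
      _ ≤ ((r+1).factorial) ^ 2 * (((1 + A) * EJ e S K N T) ^ (2 * (r + 1)) *
          ((3 * AJ e S K N) ^ (3 * (r + 1) * (K - 1)) * P)) := by
        gcongr
      _ ≤ ((r+1).factorial) ^ 2 * (((1 + A) * EJ e S K N T) ^ (2 * (r + 1)) *
          (((1 + A) * EJ e S K N T) ^ (3 * (r + 1) * (K - 1)) * P)) := by
        gcongr
      _ = ((r+1).factorial) ^ 2 * (((1 + A) * EJ e S K N T) ^ (2 * (r + 1) +
          3 * (r + 1) * (K - 1))) * P := by
        rw [pow_add]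
        ring
      _ ≤ _ := by
        refine Nat.mul_le_mul_right _ (Nat.mul_le_mul_left _ (Nat.pow_le_pow_right hA1 hexp))
  exact Nat.le_of_mul_le_mul_right hfin hPpos

end MP_a3a416_nt.LD
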