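import Pool.Agent.Lib.MP_a3a416_nt.LD.ProdBad

/-!
# LD-Theta
Logarithmic form of `prod_bad`.
PROOF (as `TW/Theta.lean`, `LJ/Theta.lean`).  `Ps` = the filtered set, choose `lam p` for every `p`; `A := ⌊exp(K N)⌋` (natural floor): `|v l g| ≤ A`.  `∑ log p = log ∏ p ≤ 2 log (r+1)! + 3(r+1)K (log (1+A) + log EJ)`.
`log EJ ≤ (log 4 + 12) K N (1 + log(T+e+S))` (`tw_EJ` of `TW/Theta.lean`, private, copy it), `log (1 + A) ≤ log 2 + K N ≤ 2 K N`, `log (r+1)! ≤ (r+1) log (r+1) ≤ (r+1) N`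
(`r + 1 ≤ S ≤ N`).  `1 ≤ 1 + log (T+e+S)`.
-/

namespace MP_a3a416_nt.LD

open Polynomial MP_a3a416_nt.BB MP_a3a416_nt.TW

private theorem tw_log_le {k N : ℕ} (h : k ≤ N) : Real.log k ≤ N := by
  have h1 : Real.log k ≤ k := by
    rcases Nat.eq_zero_or_pos k with rfl | hk
    · simp
    · have h2 : (0 : ℝ) < k := by exact_mod_cast hk
      have h3 := Real.log_le_sub_one_of_pos h2
      linarith
  have h2 : (k : ℝ) ≤ N := by exact_mod_cast h
  linarith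

private theorem tw_EJ {e S K N T : ℕ} (hS : 1 ≤ S) (hK : 1 ≤ K) (hT : 1 ≤ T) (hSN : S ≤ N) (hTN : T ≤ N)
    (hKN : K ≤ N) (hN : 2 * (T + e + S) ≤ N) :
    Real.log (EJ e S K N T) ≤ (Real.log 4 + 12) * ((K : ℝ) * N * (1 + Real.log ((T : ℝ) + e + S))) := by
  have hS0 : (0 : ℝ) < S := by exact_mod_cast hS
  have hK0 : (0 : ℝ) < K := by exact_mod_cast hK
  have hT0 : (0 : ℝ) < T := by exact_mod_cast hT
  have hN0 : (0 : ℝ) < N := by
    have : 0 < N := by omega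
    exact_mod_cast this
  have hD0 : (0 : ℝ) < DJ K N (T + e + S) := by exact_mod_cast DJ_pos K N (T + e + S)
  have hlogL : 0 ≤ Real.log ((T : ℝ) + e + S) := Real.log_nonneg (by
    have : 1 ≤ T + e + S := by omega
    exact_mod_cast this)
  have hlog4 : 0 ≤ Real.log 4 := Real.log_nonneg (by norm_num)
  have e1 : Real.log (EJ e S K N T) = Real.log (DJ K N (T + e + S)) + (Real.log S + Real.log T +
      (Real.log K + 2 * Real.log N) + N * Real.log 2 + ((T : ℝ) + e + S) * Real.log 4) := by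
    unfold EJ
    push_cast
    have hn1 : (S : ℝ) * T ≠ 0 := mul_ne_zero hS0.ne' hT0.ne'
    have hn2 : ((K : ℝ) * (N : ℝ) ^ 2) ≠ 0 := by positivity
    have hn3 : (2 : ℝ) ^ N ≠ 0 := by positivity
    have hn4 : (4 : ℝ) ^ (T + e + S) ≠ 0 := by positivity
    rw [Real.log_mul hD0.ne' (mul_ne_zero (mul_ne_zero (mul_ne_zero hn1 hn2) hn3) hn4),
      Real.log_mul (mul_ne_zero (mul_ne_zero hn1 hn2) hn3) hn4,
      Real.log_mul (mul_ne_zero hn1 hn2) hn3, Real.log_mul hn1 hn2, Real.log_mul hS0.ne' hT0.ne',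
      Real.log_mul hK0.ne' (pow_ne_zero _ hN0.ne'), Real.log_pow, Real.log_pow, Real.log_pow]
    push_cast
    ring
  have e2 := log_DJ_le K N (T + e + S)
  have f1 : Real.log S ≤ N := tw_log_le hSN
  have f2 : Real.log T ≤ N := tw_log_le hTN
  have f2' : Real.log K ≤ N := tw_log_le hKN
  have f3 : Real.log 4 ≤ 2 := by
    have h1 : Real.log 4 = 2 * Real.log 2 := by
      rw [show (4 : ℝ) = 2 ^ 2 by norm_num, Real.log_pow]
      norm_num
    have h2 := Real.log_two_lt_d9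
    rw [h1]
    linarith
  have f4 : Real.log N ≤ N := tw_log_le le_rfl
  have f5 : N * Real.log 2 ≤ N := by
    have h2 := Real.log_two_lt_d9
    nlinarith
  have f6 : ((T : ℝ) + e + S) * Real.log 4 ≤ N := by
    have h1 : (2 : ℝ) * ((T : ℝ) + e + S) ≤ N := by exact_mod_cast hN
    have h2 : ((T : ℝ) + e + S) * Real.log 4 ≤ ((T : ℝ) + e + S) * 2 :=
      mul_le_mul_of_nonneg_left f3 (by positivity)
    linarith
  have f8 : (N : ℝ) ≤ K * N * (1 + Real.log ((T : ℝ) + e + S)) := by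
    have hK1 : (1 : ℝ) ≤ K := by exact_mod_cast hK
    have h1 : (N : ℝ) ≤ K * N := by nlinarith
    have h2 : (0 : ℝ) ≤ K * N * Real.log ((T : ℝ) + e + S) := by positivity
    nlinarith
  rw [e1]
  push_cast at e2
  obtain ⟨W, hW⟩ : ∃ W : ℝ, W = K * N * (1 + Real.log ((T : ℝ) + e + S)) := ⟨_, rfl⟩
  have e2' : Real.log (DJ K N (T + e + S)) ≤ (Real.log 4 + 4) * W := by
    rw [hW]
    refine e2.trans (le_of_eq ?_)
    ring
  rw [← hW] at f8 ⊢
  have : (Real.log 4 + 12) * W = (Real.log 4 + 4) * W + 8 * W := by ring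
  rw [this]
  linarith

private theorem tw_EJ_pos {e S K N T : ℕ} (hS : 0 < S) (hK : 0 < K) (hT : 0 < T) (hN : 0 < N) :
    0 < EJ e S K N T := by
  unfold EJ
  have := DJ_pos K N (T + e + S)
  positivity

open Classical in
theorem theta_bad : ∃ C : ℝ, 0 < C ∧ ∀ (e z S K N T J r x : ℕ) (v : ℕ → ℕ → ℤ), 1 ≤ S → 8 * (r + 1) * K ≤ S →
    e + 2 * S + 1 ≤ K * S → K * S ≤ e + 3 * S + 1 → T = 3 * S + 2 * K → S + T ≤ z + 1 → e + z ≤ 2 * J + 1 →
    4 * (r + 1) * x ≤ S * N → 2 * (T + e + S + 1) + 10 ≤ N →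
    (∀ l ≤ r, ∀ g ∈ Finset.Icc 1 J, ((|v l g| : ℤ) : ℝ) ≤ Real.exp (K * N)) →
    ∑ p ∈ (Finset.Icc (N + 1) x).filter (fun p : ℕ => p.Prime ∧ ∃ lam : ℕ → ℤ, Bad e z r v lam p), Real.log p ≤
      C * (((r : ℝ) + 1) * (K : ℝ) ^ 2 * N * (1 + Real.log ((T : ℝ) + e + S))) := by
  have hlog4 : 0 ≤ Real.log 4 := Real.log_nonneg (by norm_num)
  refine ⟨2 + 3 * (2 + (Real.log 4 + 12)), by positivity, ?_⟩
  intro e z S K N T J r x v hS h8 hK1 hK2 hT hz hJ hx hN hv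
  obtain ⟨Ps, hPs⟩ : ∃ Ps : Finset ℕ, Ps = (Finset.Icc (N + 1) x).filter
    (fun p : ℕ => p.Prime ∧ ∃ lam : ℕ → ℤ, Bad e z r v lam p) := ⟨_, rfl⟩
  rw [← hPs]
  have hP : ∀ p ∈ Ps, p.Prime ∧ N < p ∧ p ≤ x ∧
      Bad e z r v ((fun p => if h : ∃ lam : ℕ → ℤ, Bad e z r v lam p then h.choose else 0) p) p := by
    intro p hp
    rw [hPs, Finset.mem_filter, Finset.mem_Icc] at hp
    refine ⟨hp.2.1, by omega, hp.1.2, ?_⟩
    simp only [dif_pos hp.2.2]
    exact hp.2.2.choose_spec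
  have hK : 1 ≤ K := by
    rcases Nat.eq_zero_or_pos K with h0 | h0
    · subst h0
      omega
    · exact h0
  have hrS : r + 1 ≤ S := by nlinarith
  obtain ⟨A, hA⟩ : ∃ A : ℕ, A = ⌊Real.exp ((K : ℝ) * N)⌋₊ := ⟨_, rfl⟩
  have hv' : ∀ l ≤ r, ∀ g ∈ Finset.Icc 1 J, |v l g| ≤ (A : ℤ) := by
    intro l hl g hg
    have h1 := hv l hl g hg
    have h2 : (((v l g).natAbs : ℕ) : ℝ) ≤ Real.exp ((K : ℝ) * N) := by
      rw [Nat.cast_natAbs]
      exact h1
    have h3 : (v l g).natAbs ≤ A := by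
      rw [hA]
      exact Nat.le_floor h2
    rw [Int.abs_eq_natAbs]
    exact_mod_cast h3
  have hA1 : (A : ℝ) ≤ Real.exp ((K : ℝ) * N) := by
    rw [hA]
    exact Nat.floor_le (Real.exp_pos _).le
  have hmain := prod_bad hS h8 hK1 hK2 hT hz hJ hx hN v hv' Ps _ hP
  have hsum : ∑ p ∈ Ps, Real.log p = Real.log ((∏ p ∈ Ps, p : ℕ) : ℝ) := by
    push_cast
    rw [Real.log_prod]
    intro p hp
    have := (hP p hp).1.pos
    positivity
  have hprod0 : (0 : ℝ) < ((∏ p ∈ Ps, p : ℕ) : ℝ) := by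
    have : 0 < ∏ p ∈ Ps, p := Finset.prod_pos fun p hp => (hP p hp).1.pos
    exact_mod_cast this
  have hE0 : 0 < EJ e S K N T := tw_EJ_pos (by omega) (by omega) (by omega) (by omega)
  have hE0' : (0 : ℝ) < (EJ e S K N T : ℝ) := by exact_mod_cast hE0
  have hr0 : (0 : ℝ) ≤ (r : ℝ) + 1 := by positivity
  have hA0 : (0 : ℝ) < 1 + (A : ℝ) := by positivity
  have hfac0 : (0 : ℝ) < (((r + 1).factorial : ℕ) : ℝ) := by exact_mod_cast Nat.factorial_pos _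
  have hmainR : (((∏ p ∈ Ps, p : ℕ) : ℝ)) ≤
      (((r + 1).factorial : ℕ) : ℝ) ^ 2 * ((1 + (A : ℝ)) * (EJ e S K N T : ℝ)) ^ (3 * (r + 1) * K) := by
    exact_mod_cast hmain
  have hlog := Real.log_le_log hprod0 hmainR
  rw [Real.log_mul (pow_ne_zero _ hfac0.ne') (pow_ne_zero _ (mul_ne_zero hA0.ne' hE0'.ne')),
    Real.log_pow, Real.log_pow, Real.log_mul hA0.ne' hE0'.ne'] at hlog
  rw [← hsum] at hlog
  have hE := tw_EJ (e := e) (S := S) (K := K) (N := N) (T := T) hS hK (by omega) (by omega) (by omega)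
    (by omega) (by omega)
  have hlogL : 0 ≤ Real.log ((T : ℝ) + e + S) := Real.log_nonneg (by
    have : 1 ≤ T + e + S := by omega
    exact_mod_cast this)
  have hN0 : (0 : ℝ) ≤ N := Nat.cast_nonneg _
  have hKR : (1 : ℝ) ≤ K := by exact_mod_cast hK
  have hNR : (1 : ℝ) ≤ N := by
    have : 1 ≤ N := by omega
    exact_mod_cast this
  have g1 : Real.log (((r + 1).factorial : ℕ) : ℝ) ≤ (r + 1) * N := by
    have h1 : (((r + 1).factorial : ℕ) : ℝ) ≤ (((r + 1 : ℕ) : ℝ)) ^ (r + 1) := by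
      exact_mod_cast Nat.factorial_le_pow (r + 1)
    have h2 := Real.log_le_log hfac0 h1
    rw [Real.log_pow] at h2
    have h3 : Real.log ((r + 1 : ℕ) : ℝ) ≤ N := tw_log_le (by omega)
    refine h2.trans ?_
    push_cast at h3 ⊢
    exact mul_le_mul_of_nonneg_left h3 hr0
  have g2 : Real.log (1 + (A : ℝ)) ≤ 2 * ((K : ℝ) * N) := by
    have h0 : (1 : ℝ) ≤ (K : ℝ) * N := by nlinarith
    have h1 : 1 + (A : ℝ) ≤ 2 * Real.exp ((K : ℝ) * N) := by
      have h2 : (1 : ℝ) ≤ Real.exp ((K : ℝ) * N) := Real.one_le_exp (by linarith)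
      linarith
    have h2 := Real.log_le_log hA0 h1
    rw [Real.log_mul (by norm_num) (Real.exp_pos _).ne', Real.log_exp] at h2
    have h3 := Real.log_two_lt_d9
    linarith
  obtain ⟨W, hW⟩ : ∃ W : ℝ, W = K * N * (1 + Real.log ((T : ℝ) + e + S)) := ⟨_, rfl⟩
  rw [← hW] at hE
  have g3 : (K : ℝ) * N ≤ W := by
    rw [hW]
    have : 0 ≤ (K : ℝ) * N * Real.log ((T : ℝ) + e + S) := by positivity
    nlinarith
  have g4 : (N : ℝ) ≤ K * W := by
    have w1 : (N : ℝ) ≤ (K : ℝ) * N := by nlinarith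
    have w0 : 0 ≤ W := by linarith
    have w2 : 1 * W ≤ (K : ℝ) * W := mul_le_mul_of_nonneg_right hKR w0
    linarith
  have k1 : Real.log (((r + 1).factorial : ℕ) : ℝ) ≤ ((r : ℝ) + 1) * (K * W) :=
    g1.trans (mul_le_mul_of_nonneg_left g4 hr0)
  have k2 : Real.log (1 + (A : ℝ)) + Real.log (EJ e S K N T) ≤ (2 + (Real.log 4 + 12)) * W := by
    have : (2 + (Real.log 4 + 12)) * W = 2 * W + (Real.log 4 + 12) * W := by ring
    rw [this]
    linarith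
  have k3 : ((3 * (r + 1) * K : ℕ) : ℝ) * (Real.log (1 + (A : ℝ)) + Real.log (EJ e S K N T)) ≤
      ((3 * (r + 1) * K : ℕ) : ℝ) * ((2 + (Real.log 4 + 12)) * W) :=
    mul_le_mul_of_nonneg_left k2 (Nat.cast_nonneg _)
  refine hlog.trans ?_
  have k4 : ((2 + 3 * (2 + (Real.log 4 + 12))) *
      (((r : ℝ) + 1) * (K : ℝ) ^ 2 * N * (1 + Real.log ((T : ℝ) + e + S)))) =
      2 * (((r : ℝ) + 1) * (K * W)) + ((3 * (r + 1) * K : ℕ) : ℝ) * ((2 + (Real.log 4 + 12)) * W) := by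
    rw [hW]
    push_cast
    ring
  rw [k4]
  push_cast at k3 ⊢
  linarith

end MP_a3a416_nt.LD
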